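import Pool.Agent.Y892.AN.Ela

/-!
Normal subloops and the points fixed by the inner mappings in the commutator subgroup of the
multiplication group.
-/

namespace H361AL

variable {Q : Type*} [Loop Q]

variable (Q) in
/-- the elements fixed by the inner mappings in the commutator subgroup -/
def Fx : Set Q := {a | ∀ g ∈ ⁅Mlt Q, Mlt Q⁆, g 1 = 1 → g a = a}

theorem derived_le : ⁅Mlt Q, Mlt Q⁆ ≤ Mlt Q := Subgroup.commutator_le_self _

theorem derived_conj {g h : Equiv.Perm Q} (hg : g ∈ ⁅Mlt Q, Mlt Q⁆) (hh : h ∈ Mlt Q) :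
    h⁻¹ * g * h ∈ ⁅Mlt Q, Mlt Q⁆ := by
  have h1 := Subgroup.commutator_mem_commutator (inv_mem hh) (derived_le hg)
  rw [commutatorElement_def, inv_inv] at h1
  have h2 := mul_mem h1 hg
  have e : h⁻¹ * g * h * g⁻¹ * g = h⁻¹ * g * h := by group
  rwa [e] at h2

theorem Fx_Nm : Fx Q ⊆ Nm Q := by
  intro a ha x y
  have h1 := Subgroup.commutator_mem_commutator (inv_mem (L_mem x)) (inv_mem (R_mem y))
  rw [commutatorElement_def, inv_inv, inv_inv] at h1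
  have h2 := ha _ h1 (by
    simp only [Equiv.Perm.mul_apply]
    rw [Equiv.Perm.inv_eq_iff_eq, Equiv.Perm.inv_eq_iff_eq, R_one', L_one', L_apply, R_apply])
  simp only [Equiv.Perm.mul_apply] at h2
  rw [Equiv.Perm.inv_eq_iff_eq, Equiv.Perm.inv_eq_iff_eq] at h2
  simp only [L_apply, R_apply] at h2
  exact h2.symm

variable [Automorphic Q]

theorem NSb.inter_Fx {M : Set Q} (h : NSb M) : NSb (M ∩ Fx Q) where
  one := ⟨h.one, fun _ _ h1 => h1⟩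
  mul a ha b hb := ⟨h.mul a ha.1 b hb.1, fun g hg h1 => by
    rw [aut (derived_le hg) h1, ha.2 g hg h1, hb.2 g hg h1]⟩
  inv' a ha := ⟨h.inv' a ha.1, fun g hg h1 => by
    rw [aut_iv (derived_le hg) h1, ha.2 g hg h1]⟩
  st f hf hf1 m hm := ⟨h.st f hf hf1 m hm.1, fun g hg h1 => by
    have h2 := hm.2 _ (derived_conj hg hf) (by
      simp only [Equiv.Perm.mul_apply]
      rw [hf1, h1, Equiv.Perm.inv_eq_iff_eq, hf1])
    simp only [Equiv.Perm.mul_apply] at h2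
    rw [Equiv.Perm.inv_eq_iff_eq] at h2
    exact h2⟩

theorem exists_fix [Finite Q] {p k : ℕ} (hp : p.Prime) (hcard : Nat.card Q = p ^ k)
    (hsc : ∀ g ∈ ⁅Mlt Q, Mlt Q⁆, ∃ n, g ^ p ^ n = 1) {M : Set Q} (h : NSb M) {m : Q}
    (hm : m ∈ M) (hm1 : m ≠ 1) : ∃ a ∈ M ∩ Fx Q, a ≠ 1 := by
  have : Fact p.Prime := ⟨hp⟩
  set S : Subgroup (Equiv.Perm Q) :=
    ⁅Mlt Q, Mlt Q⁆ ⊓ MulAction.stabilizer (Equiv.Perm Q) (1 : Q) with hS
  have hpS : IsPGroup p S := by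
    rintro ⟨c, hc⟩
    obtain ⟨k, hk⟩ := hsc c hc.1
    exact ⟨k, Subtype.ext hk⟩
  let X : SubMulAction S Q :=
    { carrier := M
      smul_mem' := fun s {m} hm => h.st s.1 (derived_le s.2.1) s.2.2 m hm }
  have hdvd : p ∣ Nat.card X := by
    have h1 : Nat.card X ∣ p ^ k := by rw [← hcard]; exact h.card_dvd
    obtain ⟨i, _, hi⟩ := (Nat.dvd_prime_pow hp).1 h1
    rw [hi]
    apply dvd_pow_self
    rintro rfl
    rw [pow_zero, Nat.card_eq_one_iff_unique] at hi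
    exact hm1 (congrArg Subtype.val (hi.1.elim (⟨m, hm⟩ : X) ⟨1, h.one⟩))
  have hfix : (⟨1, h.one⟩ : X) ∈ MulAction.fixedPoints S X := fun s => Subtype.ext s.2.2
  obtain ⟨a, ha, hae⟩ := hpS.exists_fixed_point_of_prime_dvd_card_of_fixed_point X hdvd hfix
  refine ⟨a.1, ⟨a.2, fun g hg h1 => ?_⟩, fun h => hae (Subtype.ext h.symm)⟩
  exact congrArg Subtype.val (ha ⟨g, hg, h1⟩)

/-- elementary abelian normal subloops inside a given one -/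
theorem exists_K [Finite Q] {p k : ℕ} (hp : p.Prime) (hcard : Nat.card Q = p ^ k)
    (hsc : ∀ g ∈ ⁅Mlt Q, Mlt Q⁆, ∃ n, g ^ p ^ n = 1) {M : Set Q} (h : NSb M) {m : Q}
    (hm : m ∈ M) (hm1 : m ≠ 1) : ∃ K : Set Q, NSb K ∧ K ⊆ M ∧ (∃ a ∈ K, a ≠ 1) ∧ K ⊆ Nm Q ∧
      (∀ a ∈ K, ∀ b ∈ K, a * b = b * a) ∧ (∀ a ∈ K, (L a) ^ p = 1) ∧
      ∀ g ∈ ⁅Mlt Q, Mlt Q⁆, g 1 = 1 → ∀ a ∈ K, g a = a := by
  obtain ⟨a, ha, ha1⟩ := exists_fix hp hcard hsc h hm hm1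
  obtain ⟨K, hK1, hK2, hK3, hK4, hK5⟩ := exists_ela hp hcard h.inter_Fx
    (fun x hx => Fx_Nm hx.2) ha ha1
  exact ⟨K, hK1, fun x hx => (hK2 hx).1, hK3, fun x hx => Fx_Nm (hK2 hx).2, hK4, hK5,
    fun g hg h1 a ha => (hK2 ha).2 g hg h1⟩

end H361AL
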