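import Pool.Agent.Y892.AN.Odd

/-!
Normal subloops inside the middle nucleus: Lagrange, elementary abelian normal subloops.
-/

namespace H361AL

variable {Q : Type*} [Loop Q] [Automorphic Q]

theorem NSb.card_dvd [Finite Q] {M : Set Q} (h : NSb M) :
    Nat.card {m : Q // m ∈ M} ∣ Nat.card Q := by
  let s : Setoid Q :=
    { r := fun x y => ∃ m ∈ M, y = x * m
      iseqv := ⟨h.rfl', h.symm', h.trans'⟩ }
  have hfib : ∀ q : Quotient s, Nat.card {y // Quotient.mk s y = q} =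
      Nat.card {m : Q // m ∈ M} := by
    intro q
    obtain ⟨x, rfl⟩ := Quotient.exists_rep q
    refine (Nat.card_congr ((L x).subtypeEquiv ?_)).symm
    intro m
    rw [eq_comm, Quotient.eq]
    change m ∈ M ↔ ∃ t ∈ M, x * m = x * t
    constructor
    · intro hm; exact ⟨m, hm, rfl⟩
    · rintro ⟨t, ht, h1⟩
      rw [(bij_left x).1 h1]; exact ht
  have hfin : Finite (Quotient s) := inferInstance
  have := Fintype.ofFinite (Quotient s)
  refine ⟨Nat.card (Quotient s), ?_⟩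
  rw [← Nat.card_congr (Equiv.sigmaFiberEquiv (Quotient.mk s)), Nat.card_sigma]
  simp only [hfib]
  rw [Finset.sum_const, Finset.card_univ, ← Nat.card_eq_fintype_card, smul_eq_mul, mul_comm]

variable (Q) in
/-- the middle nucleus -/
def Nm : Set Q := {a | ∀ x y : Q, (x * a) * y = x * (a * y)}

omit [Automorphic Q] in
theorem Nm_one : (1 : Q) ∈ Nm Q := fun x y => by rw [Loop.mul_one', Loop.one_mul']

omit [Automorphic Q] in
theorem Nm_mul {a b : Q} (ha : a ∈ Nm Q) (hb : b ∈ Nm Q) : a * b ∈ Nm Q := by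
  intro x y
  rw [← ha x b, hb (x * a) y, ha x (b * y), hb a y]

theorem Nm_iv {a : Q} (ha : a ∈ Nm Q) : iv a ∈ Nm Q := by
  have h1 : ∀ y, iv a * (a * y) = y := fun y => by
    rw [← ha (iv a) y, iv_mul, Loop.one_mul']
  have h2 : ∀ x, (x * a) * iv a = x := fun x => by
    rw [ha x (iv a), mul_iv, Loop.mul_one']
  have h3 : ∀ y, a * (iv a * y) = y := fun y => by
    apply (bij_left (iv a)).1
    exact h1 _
  have h4 : ∀ x, (x * iv a) * a = x := fun x => by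
    apply (bij_right (iv a)).1
    exact h2 _
  intro x y
  calc (x * iv a) * y = (x * iv a) * (a * (iv a * y)) := by rw [h3]
    _ = ((x * iv a) * a) * (iv a * y) := (ha _ _).symm
    _ = x * (iv a * y) := by rw [h4]

theorem Nm_st {g : Equiv.Perm Q} (hg : g ∈ Mlt Q) (h1 : g 1 = 1) {a : Q} (ha : a ∈ Nm Q) :
    g a ∈ Nm Q := by
  intro x y
  have hx : g (g⁻¹ x) = x := g.apply_symm_apply x
  have hy : g (g⁻¹ y) = y := g.apply_symm_apply y
  rw [← hx, ← hy, ← aut hg h1, ← aut hg h1, ← aut hg h1, ← aut hg h1, ha]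

theorem NSb.inter {M : Set Q} (h : NSb M) : NSb (M ∩ Nm Q) where
  one := ⟨h.one, Nm_one⟩
  mul a ha b hb := ⟨h.mul a ha.1 b hb.1, Nm_mul ha.2 hb.2⟩
  inv' a ha := ⟨h.inv' a ha.1, Nm_iv ha.2⟩
  st g hg h1 m hm := ⟨h.st g hg h1 m hm.1, Nm_st hg h1 hm.2⟩

/-- a normal subloop inside the middle nucleus is a group -/
@[reducible] noncomputable def grp {M : Set Q} (h : NSb M) (hM : M ⊆ Nm Q) :
    Group {m : Q // m ∈ M} where
  mul a b := ⟨a.1 * b.1, h.mul _ a.2 _ b.2⟩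
  one := ⟨1, h.one⟩
  inv a := ⟨iv a.1, h.inv' _ a.2⟩
  mul_assoc a b c := Subtype.ext (hM b.2 a.1 c.1)
  one_mul a := Subtype.ext (Loop.one_mul' _)
  mul_one a := Subtype.ext (Loop.mul_one' _)
  inv_mul_cancel a := Subtype.ext (iv_mul _)

theorem exists_ela [Finite Q] {p k : ℕ} (hp : p.Prime) (hcard : Nat.card Q = p ^ k) {M : Set Q}
    (h : NSb M) (hM : M ⊆ Nm Q) {m : Q} (hm : m ∈ M) (hm1 : m ≠ 1) :
    ∃ K : Set Q, NSb K ∧ K ⊆ M ∧ (∃ a ∈ K, a ≠ 1) ∧ (∀ a ∈ K, ∀ b ∈ K, a * b = b * a) ∧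
      ∀ a ∈ K, (L a) ^ p = 1 := by
  have hfp : Fact p.Prime := ⟨hp⟩
  let inst : Group {m : Q // m ∈ M} := grp h hM
  have hmul : ∀ a b : {m : Q // m ∈ M}, (a * b).1 = a.1 * b.1 := fun _ _ => rfl
  have hone : ((1 : {m : Q // m ∈ M})).1 = 1 := rfl
  have hinv : ∀ a : {m : Q // m ∈ M}, (a⁻¹).1 = iv a.1 := fun _ => rfl
  have hG : IsPGroup p {m : Q // m ∈ M} := by
    have h1 := h.card_dvd
    rw [hcard] at h1
    obtain ⟨i, _, hi⟩ := (Nat.dvd_prime_pow hp).1 h1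
    exact IsPGroup.of_card hi
  have hnt : Nontrivial {m : Q // m ∈ M} :=
    ⟨⟨⟨m, hm⟩, 1, fun h0 => hm1 (congrArg Subtype.val h0)⟩⟩
  have hZ : Nontrivial (Subgroup.center {m : Q // m ∈ M}) := hG.center_nontrivial
  have hZp : IsPGroup p (Subgroup.center {m : Q // m ∈ M}) := hG.to_subgroup _
  obtain ⟨n, hn⟩ := IsPGroup.iff_card.1 hZp
  have hn0 : n ≠ 0 := by
    rintro rfl
    rw [pow_zero] at hn
    have := Finite.one_lt_card (α := Subgroup.center {m : Q // m ∈ M})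
    omega
  have hdvd : p ∣ Nat.card (Subgroup.center {m : Q // m ∈ M}) := by
    rw [hn]; exact dvd_pow_self p hn0
  obtain ⟨c, hc⟩ := exists_prime_orderOf_dvd_card' p hdvd
  have hcp : c ^ p = 1 := by rw [← hc]; exact pow_orderOf_eq_one c
  have hc1 : c ≠ 1 := by
    rintro rfl
    rw [orderOf_one] at hc
    exact hp.one_lt.ne hc
  refine ⟨{x | ∃ hx : x ∈ M, (⟨x, hx⟩ : {m : Q // m ∈ M}) ∈ Subgroup.center {m : Q // m ∈ M} ∧
    (⟨x, hx⟩ : {m : Q // m ∈ M}) ^ p = 1}, ⟨?_, ?_, ?_, ?_⟩, ?_, ?_, ?_, ?_⟩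
  · exact ⟨h.one, one_mem _, one_pow p⟩
  · rintro a ⟨ha, ha1, ha2⟩ b ⟨hb, hb1, hb2⟩
    refine ⟨h.mul a ha b hb, mul_mem ha1 hb1, ?_⟩
    have hcomm : Commute (⟨a, ha⟩ : {m : Q // m ∈ M}) ⟨b, hb⟩ :=
      (Subgroup.mem_center_iff.1 ha1 ⟨b, hb⟩).symm
    have h2 := hcomm.mul_pow p
    rw [ha2, hb2, one_mul] at h2
    exact h2
  · rintro a ⟨ha, ha1, ha2⟩
    refine ⟨h.inv' a ha, inv_mem ha1, ?_⟩
    have h2 : (⟨a, ha⟩ : {m : Q // m ∈ M})⁻¹ ^ p = 1 := by rw [inv_pow, ha2, inv_one]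
    exact h2
  · rintro g hg hg1 a ⟨ha, ha1, ha2⟩
    have hgi : g⁻¹ 1 = 1 := by rw [Equiv.Perm.inv_eq_iff_eq, hg1]
    refine ⟨h.st g hg hg1 a ha, ?_, ?_⟩
    · rw [Subgroup.mem_center_iff]
      intro b
      have hb' : g⁻¹ b.1 ∈ M := h.st _ (inv_mem hg) hgi _ b.2
      have h2 := congrArg Subtype.val (Subgroup.mem_center_iff.1 ha1 ⟨g⁻¹ b.1, hb'⟩)
      rw [hmul, hmul] at h2
      have h3 := congrArg g h2
      rw [aut hg hg1, aut hg hg1] at h3
      have h4 : g (g⁻¹ b.1) = b.1 := g.apply_symm_apply _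
      apply Subtype.ext
      rw [hmul, hmul]
      change g (g⁻¹ b.1) * g a = g a * g (g⁻¹ b.1) at h3
      rw [h4] at h3
      exact h3
    · let φ : {m : Q // m ∈ M} →* {m : Q // m ∈ M} :=
        { toFun := fun x => ⟨g x.1, h.st g hg hg1 _ x.2⟩
          map_one' := Subtype.ext hg1
          map_mul' := fun x y => Subtype.ext (aut hg hg1 _ _) }
      have h2 : (φ ⟨a, ha⟩) ^ p = 1 := by rw [← map_pow, ha2, map_one]
      exact h2
  · rintro a ⟨ha, _⟩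
    exact ha
  · refine ⟨c.1.1, ⟨c.1.2, c.2, ?_⟩, ?_⟩
    · exact congrArg Subtype.val hcp
    · intro h0
      exact hc1 (Subtype.ext (Subtype.ext h0))
  · rintro a ⟨ha, ha1, _⟩ b ⟨hb, _⟩
    exact (congrArg Subtype.val (Subgroup.mem_center_iff.1 ha1 ⟨b, hb⟩)).symm
  · rintro a ⟨ha, _, ha2⟩
    have hpow : ∀ n : ℕ, (L a) ^ n = L ((⟨a, ha⟩ : {m : Q // m ∈ M}) ^ n).1 := by
      intro n
      induction n with
      | zero =>
        ext y
        rw [pow_zero, pow_zero, hone, L_apply, Loop.one_mul']; rfl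
      | succ n ih =>
        ext y
        rw [pow_succ', ih, pow_succ', hmul, Equiv.Perm.mul_apply, L_apply, L_apply, L_apply]
        exact (hM (((⟨a, ha⟩ : {m : Q // m ∈ M}) ^ n).2) a y).symm
    rw [hpow, ha2, hone]
    ext y
    rw [L_apply, Loop.one_mul']; rfl

end H361AL
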