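import Pool.Agent.Y892.AN.Ela

/-!
A nonzero invariant subgroup of `V` on which all the `D x` commute; the commutator subgroup of the
multiplication group centralises it.
-/

namespace H361AL

theorem common_ann {V : Type*} [AddCommGroup V] [Finite V] {ι : Type*} [Finite ι]
    (C : ι → AddMonoid.End V) (hc : ∀ i j, C i * C j = C j * C i) (hs : ∀ i, C i * C i = 0)
    (hne : ∃ v : V, v ≠ 0) : ∃ E : AddMonoid.End V, E ≠ 0 ∧ ∀ i, E * C i = 0 := by
  have hfin : Finite (AddMonoid.End V) := DFunLike.finite _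
  obtain ⟨E, ⟨hE, hEc⟩, hmax⟩ := Set.exists_max_image
    {E : AddMonoid.End V | E ≠ 0 ∧ ∀ i, E * C i = C i * E}
    (fun E => Set.ncard {i | E * C i = 0}) (Set.toFinite _)
    ⟨1, by
      obtain ⟨v, hv⟩ := hne
      refine ⟨fun h => hv ?_, fun i => by rw [one_mul, mul_one]⟩
      have := congrArg (fun f : AddMonoid.End V => f v) h
      exact this⟩
  refine ⟨E, hE, fun i => ?_⟩
  by_contra hi
  have h1 := hmax (E * C i) ⟨hi, fun j => by
    rw [mul_assoc, hc, ← mul_assoc, hEc, mul_assoc]⟩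
  have hlt : {j | E * C j = 0} ⊂ {j | E * C i * C j = 0} := by
    refine ⟨fun j hj => ?_, fun hsub => ?_⟩
    · have hj' : E * C j = 0 := hj
      change E * C i * C j = 0
      rw [mul_assoc, hc, ← mul_assoc, hj', zero_mul]
    · have h2 : i ∈ {j | E * C i * C j = 0} := by
        change E * C i * C i = 0
        rw [mul_assoc, hs, mul_zero]
      exact hi (hsub h2)
  have h3 := Set.ncard_lt_ncard hlt (Set.toFinite _)
  exact absurd h1 (not_le.2 h3)

theorem comm_closure {G : Type*} [Group G] {E : Type*} [Monoid E] (τ : G →* E) (s : Set G)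
    (hs : Subgroup.closure s = ⊤) (h : ∀ a ∈ s, ∀ b ∈ s, Commute (τ a) (τ b)) (a b : G) :
    Commute (τ a) (τ b) := by
  have key : ∀ {a b : G}, Commute (τ a) (τ b) → Commute (τ a⁻¹) (τ b) := by
    intro a b hab
    have e1 : τ a⁻¹ * τ a = 1 := by rw [← map_mul, inv_mul_cancel, map_one]
    have e2 : τ a * τ a⁻¹ = 1 := by rw [← map_mul, mul_inv_cancel, map_one]
    calc τ a⁻¹ * τ b = τ a⁻¹ * τ b * (τ a * τ a⁻¹) := by rw [e2, mul_one]
      _ = τ a⁻¹ * (τ b * τ a) * τ a⁻¹ := by simp only [mul_assoc]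
      _ = τ a⁻¹ * (τ a * τ b) * τ a⁻¹ := by rw [hab.eq]
      _ = (τ a⁻¹ * τ a) * τ b * τ a⁻¹ := by simp only [mul_assoc]
      _ = τ b * τ a⁻¹ := by rw [e1, one_mul]
  have step : ∀ b : G, (∀ c ∈ s, Commute (τ c) (τ b)) → ∀ a : G, Commute (τ a) (τ b) := by
    intro b hb a
    have ha : a ∈ Subgroup.closure s := by rw [hs]; trivial
    induction ha using Subgroup.closure_induction with
    | mem x hx => exact hb x hx
    | one => rw [map_one]; exact Commute.one_left _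
    | mul x y _ _ hx hy => rw [map_mul]; exact hx.mul_left hy
    | inv x _ hx => exact key hx
  exact step b (fun c hc => (step c (fun d hd => h d hd c hc) b).symm) a

variable {Q : Type*} [Loop Q] [Automorphic Q]

theorem exists_F [Finite Q] {p k : ℕ} (hp : p.Prime) (hp2 : Odd p) (hodd : Odd (Nat.card Q))
    (hcard : Nat.card Q = p ^ k) (hk : 1 ≤ k) :
    ∃ F : AddSubgroup (V Q p), (∃ v ∈ F, v ≠ 0) ∧ (∀ x : Q, ∀ v ∈ F, D x v ∈ F) ∧
      ∀ x y : Q, ∀ v ∈ F, D x (D y v) = D y (D x v) := by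
  obtain ⟨V2, hV2, hVD, hVB⟩ := exists_V2 hp hp2 hodd hcard hk
  have hfinW : Finite ↥(W Q p) := inferInstance
  have hfinV : Finite (V Q p) := hfinW
  have hfinS : Finite (AddSubgroup (V Q p)) :=
    Finite.of_injective (fun F : AddSubgroup (V Q p) => (F : Set (V Q p))) SetLike.coe_injective
  obtain ⟨F, ⟨hF1, hF2, hV⟩, hmin⟩ := (Set.toFinite {F : AddSubgroup (V Q p) | F ≤ V2 ∧
    (∃ v ∈ F, v ≠ 0) ∧ ∀ x : Q, ∀ v ∈ F, D x v ∈ F}).exists_minimal ⟨V2, le_rfl, hV2, hVD⟩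
  have hB : ∀ a ∈ F, ∀ b ∈ F, B a b = 0 := fun a ha b hb => hVB a (hF1 ha) b (hF1 hb)
  set Pr : AddMonoid.End F → Prop := fun e => ∃ x, D2 F hV x = e with hPr
  have h2 : ∀ e : AddMonoid.End F, e + e = 0 → e = 0 := fun e he => D2_two F hp2 e he
  have hadd : ∀ X Y, Pr X → Pr Y → Pr (X + Y) := by
    rintro _ _ ⟨x, rfl⟩ ⟨y, rfl⟩
    exact D2_add F hV hB hodd hp2 x y
  have hbr : ∀ X Y, Pr X → Pr Y → Pr (br X Y) := by
    rintro _ _ ⟨x, rfl⟩ ⟨y, rfl⟩
    exact D2_br F hV hB hodd hp2 x y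
  have h1 : ∀ X Z, Pr X → Pr Z → br X Z * X = 0 := by
    rintro _ _ ⟨x, rfl⟩ ⟨y, rfl⟩
    exact D2_key F hV hB hodd hp2 x y
  have hfinF : Finite F := inferInstance
  obtain ⟨v0, hv0, hv0n⟩ := hF2
  obtain ⟨E, hE, hEC⟩ := common_ann (V := F) (ι := Q × Q)
    (fun i => br (D2 F hV i.1) (D2 F hV i.2))
    (fun i j => br_comm Pr h2 hadd hbr h1 ⟨_, rfl⟩ ⟨_, rfl⟩ ⟨_, rfl⟩ ⟨_, rfl⟩)
    (fun i => br_br Pr h2 hadd hbr h1 ⟨_, rfl⟩ ⟨_, rfl⟩ ⟨_, rfl⟩)
    ⟨⟨v0, hv0⟩, fun h => hv0n (congrArg Subtype.val h)⟩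
  -- the subgroup generated by the values of the brackets
  set U : AddSubgroup (V Q p) :=
    AddSubgroup.closure {u | ∃ x y : Q, ∃ v ∈ F, u = D x (D y v) - D y (D x v)} with hU
  have hUF : U ≤ F := by
    rw [hU, AddSubgroup.closure_le]
    rintro _ ⟨x, y, v, hv, rfl⟩
    exact sub_mem (hV x _ (hV y _ hv)) (hV y _ (hV x _ hv))
  have hUD : ∀ z : Q, ∀ u ∈ U, D z u ∈ U := by
    intro z u hu
    induction hu using AddSubgroup.closure_induction with
    | mem u hu =>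
      obtain ⟨x, y, v, hv, rfl⟩ := hu
      obtain ⟨w, hw⟩ := D2_br F hV hB hodd hp2 x y
      have hw' : ∀ v ∈ F, D w v = D x (D y v) - D y (D x v) := by
        intro v hv
        have := congrArg (fun f : AddMonoid.End F => (f ⟨v, hv⟩).1) hw
        exact this
      have e : D z (D x (D y v) - D y (D x v)) =
          (D x (D y (D z v)) - D y (D x (D z v))) - (D w (D z v) - D z (D w v)) := by
        rw [hw' v hv, hw' _ (hV z v hv)]; abel
      rw [e]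
      exact sub_mem (AddSubgroup.subset_closure ⟨x, y, D z v, hV z v hv, rfl⟩)
        (AddSubgroup.subset_closure ⟨w, z, v, hv, rfl⟩)
    | zero => rw [map_zero]; exact zero_mem _
    | add c d _ _ hc hd => rw [map_add]; exact add_mem hc hd
    | neg c _ hc => rw [map_neg]; exact neg_mem hc
  have hU0 : ∀ u ∈ U, u = 0 := by
    by_contra hcon
    push Not at hcon
    obtain ⟨u0, hu0, hu0n⟩ := hcon
    have hFU : F ≤ U := hmin ⟨hUF.trans hF1, ⟨u0, hu0, hu0n⟩, hUD⟩ hUF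
    apply hE
    have hkill : ∀ u (hu : u ∈ U), E ⟨u, hUF hu⟩ = 0 := by
      intro u hu
      induction hu using AddSubgroup.closure_induction with
      | mem u hu =>
        obtain ⟨x, y, v, hv, rfl⟩ := hu
        have := congrArg (fun f : AddMonoid.End F => f ⟨v, hv⟩) (hEC (x, y))
        exact this
      | zero => exact map_zero E
      | add c d hc' hd' hc hd =>
        have := map_add E ⟨c, hUF hc'⟩ ⟨d, hUF hd'⟩
        rw [hc, hd, add_zero] at this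
        exact this
      | neg c hc' hc =>
        have := map_neg E ⟨c, hUF hc'⟩
        rw [hc, neg_zero] at this
        exact this
    refine DFunLike.ext _ _ fun v => ?_
    exact hkill v.1 (hFU v.2)
  refine ⟨F, ⟨v0, hv0, hv0n⟩, hV, fun x y v hv => ?_⟩
  exact sub_eq_zero.1 (hU0 _ (AddSubgroup.subset_closure ⟨x, y, v, hv, rfl⟩))

section
variable {p : ℕ} (F : AddSubgroup (V Q p)) (hV : ∀ x : Q, ∀ v ∈ F, D x v ∈ F)
  (hC : ∀ x y : Q, ∀ v ∈ F, D x (D y v) = D y (D x v))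

theorem ρ_inj (g : Gh Q) {v w : V Q p} (h : ρ g v = ρ g w) : v = w := by
  have h1 : pm (ρ g v) = pm (ρ g w) := by rw [h]
  rw [pm_ρ, pm_ρ] at h1
  exact pm_inj (mul_left_cancel (mul_right_cancel h1))

include hV in
theorem F_ρ [Finite Q] (g : Equiv.Perm Q) (hg : g ∈ Mlt Q) (v : V Q p) :
    v ∈ F ↔ ρ ⟨g, mlt_le hg⟩ v ∈ F := by
  have hfinW : Finite ↥(W Q p) := inferInstance
  have hfinV : Finite (V Q p) := hfinW
  have hfinF : Finite F := inferInstance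
  have one_side : ∀ g : Gh Q, (∀ v ∈ F, ρ g v ∈ F) → ∀ v, v ∈ F ↔ ρ g v ∈ F := by
    intro g hgF v
    refine ⟨fun hv => hgF v hv, fun hv => ?_⟩
    have hinj : Function.Injective (fun w : F => (⟨ρ g w.1, hgF _ w.2⟩ : F)) := by
      intro a b hab
      exact Subtype.ext (ρ_inj g (congrArg Subtype.val hab))
    obtain ⟨w, hw⟩ := (Finite.surjective_of_injective hinj) ⟨ρ g v, hv⟩
    have := ρ_inj g (congrArg Subtype.val hw)
    rw [← this]; exact w.2
  let St : Subgroup (Gh Q) :=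
    { carrier := {g | ∀ v, v ∈ F ↔ ρ g v ∈ F}
      one_mem' := fun v => by
        have : (ρ (1 : Gh Q) : AddMonoid.End (V Q p)) v = v := by rw [ρ_one]; rfl
        rw [this]
      mul_mem' := fun {a b} ha hb v => by
        have : (ρ (a * b) : AddMonoid.End (V Q p)) v = ρ a (ρ b v) := by rw [ρ_mul]; rfl
        rw [this]
        exact (hb v).trans (ha _)
      inv_mem' := fun {a} ha v => by
        have : (ρ (a * a⁻¹) : AddMonoid.End (V Q p)) v = ρ a (ρ a⁻¹ v) := by rw [ρ_mul]; rfl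
        rw [mul_inv_cancel, ρ_one] at this
        have h2 := ha (ρ a⁻¹ v)
        rw [← this] at h2
        exact h2.symm }
  have hle : Mlt Q ≤ St.map (Gh Q).subtype := by
    rw [Mlt, Subgroup.closure_le]
    rintro _ (⟨x, rfl⟩ | ⟨x, rfl⟩)
    · refine ⟨Lg x, one_side (Lg x) (fun v hv => ?_), rfl⟩
      rw [ρ_L_apply]; exact add_mem hv (hV x v hv)
    · refine ⟨Rg x, one_side (Rg x) (fun v hv => ?_), rfl⟩
      rw [ρ_R, ρ_L_apply]; exact add_mem hv (hV _ v hv)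
  obtain ⟨g', hg', h⟩ := hle hg
  have h' : g' = ⟨g, mlt_le hg⟩ := Subtype.ext h
  rw [← h']
  exact hg' v

include hV hC in
theorem derived_comm [Finite Q] (hodd : Odd (Nat.card Q)) {g : Equiv.Perm Q}
    (hg : g ∈ ⁅Mlt Q, Mlt Q⁆) {v : V Q p} (hv : v ∈ F) : g * pm v = pm v * g := by
  let τ : Mlt Q →* AddMonoid.End F :=
    { toFun := fun g =>
        { toFun := fun v => ⟨ρ ⟨g.1, mlt_le g.2⟩ v.1, (F_ρ F hV g.1 g.2 v.1).1 v.2⟩
          map_zero' := Subtype.ext (map_zero _)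
          map_add' := fun a b => Subtype.ext (map_add _ _ _) }
      map_one' := by
        refine DFunLike.ext _ _ fun v => Subtype.ext ?_
        change ρ (1 : Gh Q) v.1 = v.1
        rw [ρ_one]; rfl
      map_mul' := fun a b => by
        refine DFunLike.ext _ _ fun v => Subtype.ext ?_
        change ρ (⟨a.1, mlt_le a.2⟩ * ⟨b.1, mlt_le b.2⟩ : Gh Q) v.1 =
          ρ ⟨a.1, mlt_le a.2⟩ (ρ ⟨b.1, mlt_le b.2⟩ v.1)
        rw [ρ_mul]; rfl }
  have hLL : ∀ x y : Q, ∀ v ∈ F, ρ (Lg x) (ρ (Lg y) v) = ρ (Lg y) (ρ (Lg x) v) := by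
    intro x y v hv
    rw [ρ_L_apply, ρ_L_apply, ρ_L_apply, ρ_L_apply, map_add, map_add, hC x y v hv]; abel
  have hgen : ∀ a ∈ ((↑) ⁻¹' (Set.range (L : Q → Equiv.Perm Q) ∪ Set.range R) : Set (Mlt Q)),
      ∃ x : Q, ∀ v : F, (τ a v).1 = ρ (Lg x) v.1 := by
    rintro ⟨a, ha⟩ (⟨x, hx⟩ | ⟨x, hx⟩)
    · have hx' : L x = a := hx
      subst hx'
      exact ⟨x, fun v => rfl⟩
    · have hx' : R x = a := hx
      subst hx'
      refine ⟨iv x, fun v => ?_⟩
      change ρ (Rg x) v.1 = _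
      rw [ρ_R]
  have hcomm := comm_closure τ _ (Subgroup.closure_closure_coe_preimage) (by
    intro a ha b hb
    obtain ⟨x, hx⟩ := hgen a ha
    obtain ⟨y, hy⟩ := hgen b hb
    refine DFunLike.ext _ _ fun v => Subtype.ext ?_
    change (τ a (τ b v)).1 = (τ b (τ a v)).1
    rw [hx, hy, hy, hx]
    exact hLL x y v.1 v.2)
  have hle : ⁅Mlt Q, Mlt Q⁆ ≤ Subgroup.centralizer (pm '' (F : Set (V Q p))) := by
    rw [Subgroup.commutator_le]
    intro a ha b hb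
    rw [Subgroup.mem_centralizer_iff]
    rintro _ ⟨w, hw, rfl⟩
    set c : Mlt Q := ⟨a, ha⟩ * ⟨b, hb⟩ * (⟨a, ha⟩ : Mlt Q)⁻¹ * (⟨b, hb⟩ : Mlt Q)⁻¹ with hc
    have h1 : τ c = 1 := by
      rw [hc, map_mul, map_mul, map_mul, (hcomm ⟨a, ha⟩ ⟨b, hb⟩).eq]
      have e1 : τ ⟨a, ha⟩ * τ (⟨a, ha⟩ : Mlt Q)⁻¹ = 1 := by
        rw [← map_mul, mul_inv_cancel, map_one]
      have e2 : τ ⟨b, hb⟩ * τ (⟨b, hb⟩ : Mlt Q)⁻¹ = 1 := by
        rw [← map_mul, mul_inv_cancel, map_one]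
      rw [mul_assoc (τ ⟨b, hb⟩), e1, mul_one, e2]
    have h2 : pm (τ c ⟨w, hw⟩).1 = pm w := by rw [h1]; rfl
    have h3 : c.1 * pm w * (c.1)⁻¹ = pm w := h2
    rw [mul_inv_eq_iff_eq_mul] at h3
    exact h3.symm
  have h4 := Subgroup.mem_centralizer_iff.1 (hle hg) (pm v) ⟨v, hv, rfl⟩
  exact h4.symm

include hV hC in
theorem pow_p [Finite Q] (hodd : Odd (Nat.card Q)) {g : Equiv.Perm Q}
    (hg : g ∈ ⁅Mlt Q, Mlt Q⁆) (hmod : ∀ z : Q, ∃ v ∈ F, g z = z * pm v 1) : g ^ p = 1 := by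
  ext z
  obtain ⟨v, hv, h1⟩ := hmod z
  rw [mul_pm, Loop.mul_one'] at h1
  set w : V Q p := ρ (Lg z) v with hw
  have hwF : w ∈ F := (F_ρ F hV (L z) (L_mem z) v).1 hv
  have h2 : ∀ j : ℕ, (g ^ j) z = pm (j • w) z := by
    intro j
    induction j with
    | zero => rw [pow_zero, zero_smul, pm_zero]
    | succ j ih =>
      have h3 := derived_comm F hV hC hodd hg (F.nsmul_mem hwF j)
      rw [pow_succ', Equiv.Perm.mul_apply, ih, ← Equiv.Perm.mul_apply, h3,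
        Equiv.Perm.mul_apply, h1, ← Equiv.Perm.mul_apply, ← pm_add, succ_nsmul]
  rw [h2, p_smul, pm_zero]

include hV in
theorem F_NSb [Finite Q] (hodd : Odd (Nat.card Q)) : NSb {x : Q | ∃ v ∈ F, x = pm v 1} where
  one := ⟨0, zero_mem _, by rw [pm_zero]; rfl⟩
  mul := by
    rintro _ ⟨v, hv, rfl⟩ _ ⟨w, hw, rfl⟩
    refine ⟨ρ (Lg (pm v 1)) w + v, add_mem ((F_ρ F hV (L (pm v 1)) (L_mem _) w).1 hw) hv, ?_⟩
    rw [mul_pm, Loop.mul_one', pm_add, Equiv.Perm.mul_apply]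
  inv' := by
    rintro _ ⟨v, hv, rfl⟩
    exact ⟨-v, neg_mem hv, iv_pm hodd v⟩
  st := by
    rintro g hg hg1 _ ⟨v, hv, rfl⟩
    refine ⟨ρ ⟨g, mlt_le hg⟩ v, (F_ρ F hV g hg v).1 hv, ?_⟩
    rw [pm_ρ]
    change g (pm v 1) = g (pm v (g⁻¹ 1))
    have : g⁻¹ 1 = 1 := by rw [Equiv.Perm.inv_eq_iff_eq, hg1]
    rw [this]

end

end H361AL
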