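import Pool.Agent.W328.OD.Solv
import Pool.Agent.Y892.AN.Ela

/-!
Normal subloops of solvable automorphic loops of odd order meet the middle nucleus.
-/

set_option autoImplicit false
set_option linter.unusedSectionVars false

namespace Pool.Agent.Y892.AN

open H361AL Pool.Agent.W328.OD
open Pool.Agent.H687R3.ALG (IsNormalSubloop iv_memM)
open scoped commutatorElement

universe u

variable {Q : Type u} [Loop Q] [Automorphic Q]

theorem exists_DatW [Finite Q] (H : Subgroup (Equiv.Perm Q)) (hHN : H ≤ N Q)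
    (hHs : Group.IsSolvable H) (hH2 : ∃ g ∈ H, g ≠ 1)
    (hH3 : ∀ g ∈ Gh Q, ∀ k ∈ H, g * k * g⁻¹ ∈ H) : ∃ D : Dat Q, D.W ≤ H := by
  let S : Set (Subgroup (Equiv.Perm Q)) :=
    {K | K ≤ H ∧ (∃ g ∈ K, g ≠ 1) ∧ ∀ g ∈ Gh Q, ∀ k ∈ K, g * k * g⁻¹ ∈ K}
  have hS : S.Nonempty := ⟨H, le_rfl, hH2, hH3⟩
  obtain ⟨W, ⟨hW1, hW2, hW3⟩, hmin⟩ := Set.exists_min_image S
    (fun H => Nat.card H) (Set.toFinite _) hS
  have hmin' : ∀ U : Subgroup (Equiv.Perm Q), U ≤ W →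
      (∀ g ∈ Gh Q, ∀ w ∈ U, g * w * g⁻¹ ∈ U) → (∃ w ∈ U, w ≠ 1) → W ≤ U := by
    intro U hU hinv hne
    have h1 := hmin U ⟨hU.trans hW1, hne, hinv⟩
    exact (Subgroup.eq_of_le_of_card_ge hU h1).ge
  have hcomm : ∀ v ∈ W, ∀ w ∈ W, v * w = w * v := by
    by_contra hcon
    push Not at hcon
    obtain ⟨v, hv, w, hw, hvw⟩ := hcon
    have h1 : W ≤ ⁅W, W⁆ := by
      apply hmin'
      · rw [Subgroup.commutator_le]
        intro a ha b hb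
        rw [commutatorElement_def]
        exact mul_mem (mul_mem (mul_mem ha hb) (inv_mem ha)) (inv_mem hb)
      · intro g hg k hk
        have hle : (⁅W, W⁆).map (MulAut.conj g).toMonoidHom ≤ ⁅W, W⁆ := by
          rw [Subgroup.map_commutator]
          have hWg : W.map (MulAut.conj g).toMonoidHom ≤ W := by
            rintro _ ⟨x, hx, rfl⟩
            exact hW3 g hg x hx
          exact Subgroup.commutator_mono hWg hWg
        exact hle ⟨k, hk, rfl⟩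
      · refine ⟨⁅v, w⁆, Subgroup.commutator_mem_commutator hv hw, fun h => hvw ?_⟩
        rwa [commutatorElement_eq_one_iff_mul_comm] at h
    have hsW : Group.IsSolvable W :=
      Group.isSolvable_of_isSolvable_injective (Subgroup.inclusion_injective hW1)
    have hntW : Nontrivial W := by
      obtain ⟨g, hg, hg1⟩ := hW2
      exact ⟨⟨g, hg⟩, 1, fun h => hg1 (congrArg Subtype.val h)⟩
    have h2 := Group.IsSolvable.commutator_lt_top_of_nontrivial W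
    apply h2.ne
    rw [eq_top_iff]
    intro x _
    have h3 : x.1 ∈ (commutator W).map W.subtype := by
      rw [Subgroup.map_subtype_commutator]
      exact h1 x.2
    obtain ⟨y, hy, hyx⟩ := h3
    have : y = x := Subtype.ext hyx
    rwa [← this]
  have hcW : 1 < Nat.card W := by
    rw [Finite.one_lt_card_iff_nontrivial]
    obtain ⟨g, hg, hg1⟩ := hW2
    exact ⟨⟨g, hg⟩, 1, fun h => hg1 (congrArg Subtype.val h)⟩
  obtain ⟨p, hp, hpW⟩ := Nat.exists_prime_and_dvd hcW.ne'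
  have hfp : Fact p.Prime := ⟨hp⟩
  obtain ⟨c, hc⟩ := exists_prime_orderOf_dvd_card' p hpW
  let U : Subgroup (Equiv.Perm Q) :=
    { carrier := {w | w ∈ W ∧ w ^ p = 1}
      one_mem' := ⟨one_mem _, one_pow _⟩
      mul_mem' := by
        rintro a b ⟨ha, ha'⟩ ⟨hb, hb'⟩
        refine ⟨mul_mem ha hb, ?_⟩
        have : Commute a b := hcomm a ha b hb
        rw [this.mul_pow, ha', hb', one_mul]
      inv_mem' := by
        rintro a ⟨ha, ha'⟩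
        exact ⟨inv_mem ha, by rw [inv_pow, ha', inv_one]⟩ }
  have hU : W ≤ U := by
    apply hmin' U (fun w hw => hw.1)
    · rintro g hg w ⟨hw, hw'⟩
      refine ⟨hW3 g hg w hw, ?_⟩
      rw [conj_pow, hw']; group
    · refine ⟨c.1, ⟨c.2, ?_⟩, ?_⟩
      · have : c ^ p = 1 := by rw [← hc]; exact pow_orderOf_eq_one c
        exact congrArg Subtype.val this
      · intro h
        have : c = 1 := Subtype.ext h
        rw [this, orderOf_one] at hc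
        exact hp.one_lt.ne hc
  refine ⟨{ W := W, p := p, hp := hp, le_N := hW1.trans hHN, comm := hcomm,
            exp := fun w hw => (hU hw).2, conj := hW3, ne := hW2, min := hmin' }, ?_⟩
  exact hW1

theorem AbM.exists_prime' [Finite Q] {M : Set Q} (h : AbM M) (hne : ∃ a ∈ M, a ≠ 1) :
    ∃ p : ℕ, p.Prime ∧ ∃ M' : Set Q, AbM M' ∧ M' ⊆ M ∧ (∃ a ∈ M', a ≠ 1) ∧
      ∀ a ∈ M', ((L a) ^ p) 1 = 1 := by
  let _ := h.grp
  have hnt : Nontrivial M := by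
    obtain ⟨a, ha, ha1⟩ := hne
    exact ⟨⟨a, ha⟩, 1, fun h => ha1 (congrArg Subtype.val h)⟩
  have hc1 : 1 < Nat.card M := Finite.one_lt_card
  obtain ⟨p, hp, hpM⟩ := Nat.exists_prime_and_dvd hc1.ne'
  have hfp : Fact p.Prime := ⟨hp⟩
  obtain ⟨c, hc⟩ := exists_prime_orderOf_dvd_card' p hpM
  have key : ∀ a : M, a ^ p = 1 ↔ ((L a.1) ^ p) 1 = 1 := by
    intro a
    have h1 := h.pow_mul a 1 p
    constructor
    · intro h2
      rw [h2] at h1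
      rw [one_mul] at h1
      exact h1.symm
    · intro h2
      apply Subtype.ext
      have h3 : ((L a.1) ^ p) (1 : M).1 = 1 := h2
      rw [mul_one, h3] at h1
      exact h1
  refine ⟨p, hp, {a | a ∈ M ∧ ((L a) ^ p) 1 = 1}, ⟨⟨?_, ?_, ?_, ?_, ?_⟩, ?_, ?_⟩,
    fun a ha => ha.1, ?_, ?_⟩
  · exact ⟨h.nrm.one_mem, (key 1).1 (one_pow p)⟩
  · rintro a ⟨ha, ha'⟩ b ⟨hb, hb'⟩
    refine ⟨h.nrm.mul_mem _ ha _ hb, ?_⟩
    have h1 := (key ⟨a, ha⟩).2 ha'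
    have h2 := (key ⟨b, hb⟩).2 hb'
    have h3 : ((⟨a, ha⟩ * ⟨b, hb⟩ : M)) ^ p = 1 := by rw [_root_.mul_pow, h1, h2, one_mul]
    exact (key _).1 h3
  · rintro a ⟨ha, ha'⟩ b ⟨hb, hb'⟩
    have hbM := h.nrm.left_div _ ha _ hb
    refine ⟨hbM, ?_⟩
    have h1 := (key ⟨a, ha⟩).2 ha'
    have h2 : ((⟨a, ha⟩ * ⟨b, hbM⟩ : M)) ^ p = 1 := (key _).2 hb'
    rw [_root_.mul_pow, h1, one_mul] at h2
    exact (key ⟨b, hbM⟩).1 h2
  · rintro a ⟨ha, ha'⟩ b ⟨hb, hb'⟩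
    have hbM := h.nrm.right_div _ ha _ hb
    refine ⟨hbM, ?_⟩
    have h1 := (key ⟨a, ha⟩).2 ha'
    have h2 : ((⟨b, hbM⟩ * ⟨a, ha⟩ : M)) ^ p = 1 := (key _).2 hb'
    rw [_root_.mul_pow, h1, mul_one] at h2
    exact (key ⟨b, hbM⟩).1 h2
  · rintro g hg hg1 a ⟨ha, ha'⟩
    refine ⟨h.nrm.inn_mem g hg hg1 a ha, ?_⟩
    have e : L (g a) = g * L a * g⁻¹ := by
      rw [autL hg hg1]; group
    have e1 : g⁻¹ 1 = 1 := by rw [Equiv.Perm.inv_eq_iff_eq, hg1]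
    rw [e, conj_pow, Equiv.Perm.mul_apply, Equiv.Perm.mul_apply, e1, ha', hg1]
  · rintro a ⟨ha, _⟩ b ⟨hb, _⟩
    exact h.comm a ha b hb
  · rintro a ⟨ha, _⟩ b ⟨hb, _⟩ c ⟨hc, _⟩
    exact h.assoc a ha b hb c hc
  · refine ⟨c.1, ⟨c.2, ?_⟩, ?_⟩
    · rw [← key]
      rw [← hc]; exact pow_orderOf_eq_one c
    · intro h1
      have : c = 1 := Subtype.ext h1
      rw [this, orderOf_one] at hc
      exact hp.one_lt.ne hc
  · rintro a ⟨_, ha⟩
    exact ha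

section P

variable {M : Set Q} (h : AbM M) {p : ℕ} (hp : p.Prime) (hMp : ∀ a ∈ M, ((L a) ^ p) 1 = 1)

include h hp hMp in
theorem Dat_of_AbM' [Finite Q] (hodd : Odd (Nat.card Q)) (hne : ∃ a ∈ M, a ≠ 1) :
    ∃ D : Dat Q, D.W ≤ KM h.nrm := by
  have hfp : Fact p.Prime := ⟨hp⟩
  let S : Set (Subgroup (Equiv.Perm Q)) :=
    {H | H ≤ KM h.nrm ∧ IsPGroup p H ∧ ∀ a ∈ KM h.nrm, ∀ b ∈ H, a * b * a⁻¹ ∈ H}
  have hT : TM h ∈ S := ⟨fun d hd => hd.1, TM_pgroup h hp hMp, fun a ha b hb => TM_conj h ha hb⟩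
  obtain ⟨H, ⟨hH1, hH2, hH3⟩, hmax⟩ := Set.exists_max_image S
    (fun H => Nat.card H) (Set.toFinite _) ⟨_, hT⟩
  have hle : ∀ H' ∈ S, H' ≤ H := by
    rintro H' ⟨h1, h2, h3⟩
    have h4 : H ⊔ H' ∈ S := by
      refine ⟨sup_le hH1 h1, sup_isPGroup hH2 h2 (fun a ha b hb => h3 a (hH1 ha) b hb), ?_⟩
      intro a ha b hb
      have h5 : (H ⊔ H').map (MulAut.conj a).toMonoidHom ≤ H ⊔ H' := by
        rw [Subgroup.map_sup]
        apply sup_le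
        · rintro _ ⟨x, hx, rfl⟩
          exact (le_sup_left : H ≤ H ⊔ H') (hH3 a ha x hx)
        · rintro _ ⟨x, hx, rfl⟩
          exact (le_sup_right : H' ≤ H ⊔ H') (h3 a ha x hx)
      exact h5 ⟨b, hb, rfl⟩
    have h5 := hmax _ h4
    have h6 := Subgroup.eq_of_le_of_card_ge (le_sup_left : H ≤ H ⊔ H') h5
    rw [h6]; exact le_sup_right
  have hsol : Group.IsSolvable H := by
    have : Group.IsNilpotent H := hH2.isNilpotent
    infer_instance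
  suffices hD : ∃ D : Dat Q, D.W ≤ H by
    obtain ⟨D, hD⟩ := hD
    exact ⟨D, hD.trans hH1⟩
  refine exists_DatW H (hH1.trans fun g hg => hg.1) hsol ?_ ?_
  · obtain ⟨a, ha, ha1⟩ := hne
    refine ⟨s a * s 1, hle _ hT (P_mem_TM h ha), fun h1 => ha1 ?_⟩
    rw [mul_eq_one_iff_eq_inv, s_inv] at h1
    exact s_inj hodd h1
  · intro g hg k hk
    have h1 : H.map (MulAut.conj g).toMonoidHom ∈ S := by
      refine ⟨?_, hH2.map _, ?_⟩
      · rintro _ ⟨x, hx, rfl⟩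
        exact KM_conj h.nrm hg (hH1 hx)
      · rintro a ha _ ⟨x, hx, rfl⟩
        have h2 : g⁻¹ * a * g ∈ KM h.nrm := by
          have := KM_conj h.nrm (inv_mem hg) ha
          rwa [inv_inv] at this
        refine ⟨(g⁻¹ * a * g) * x * (g⁻¹ * a * g)⁻¹, hH3 _ h2 x hx, ?_⟩
        change g * ((g⁻¹ * a * g) * x * (g⁻¹ * a * g)⁻¹) * g⁻¹ = a * (g * x * g⁻¹) * a⁻¹
        group
    exact hle _ h1 ⟨k, hk, rfl⟩

end P

theorem inter_nrm {M M' : Set Q} (h : IsNormalSubloop M) (h' : IsNormalSubloop M') :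
    IsNormalSubloop (M ∩ M') where
  one_mem := ⟨h.one_mem, h'.one_mem⟩
  mul_mem x hx y hy := ⟨h.mul_mem x hx.1 y hy.1, h'.mul_mem x hx.2 y hy.2⟩
  left_div x hx y hy := ⟨h.left_div x hx.1 y hy.1, h'.left_div x hx.2 y hy.2⟩
  right_div x hx y hy := ⟨h.right_div x hx.1 y hy.1, h'.right_div x hx.2 y hy.2⟩
  inn_mem g hg hg1 x hx := ⟨h.inn_mem g hg hg1 x hx.1, h'.inn_mem g hg hg1 x hx.2⟩

theorem exists_Ab' {k : ℕ} {S : ℕ → Set Q} (h : NSer Q k S) {M : Set Q}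
    (hM : IsNormalSubloop M) (hne : ∃ a ∈ M, a ≠ 1) :
    ∃ M' : Set Q, AbM M' ∧ M' ⊆ M ∧ ∃ a ∈ M', a ≠ 1 := by
  classical
  have hex : ∃ i, i ≤ k ∧ ∃ a ∈ S i ∩ M, a ≠ 1 := by
    obtain ⟨a, ha, ha1⟩ := hne
    exact ⟨k, le_rfl, a, ⟨by rw [h.top]; trivial, ha⟩, ha1⟩
  set j := Nat.find hex with hj
  obtain ⟨hjk, hj1⟩ := Nat.find_spec hex
  rw [← hj] at hjk hj1
  have hj0 : j ≠ 0 := by
    intro h0
    rw [h0, h.zero] at hj1
    obtain ⟨a, ha, ha1⟩ := hj1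
    exact ha1 ha.1
  obtain ⟨i, hi⟩ := Nat.exists_eq_succ_of_ne_zero hj0
  have hik : i < k := by omega
  have htriv : ∀ m ∈ S i, m ∈ M → m = 1 := by
    intro m hm hmM
    by_contra hm1
    exact Nat.find_min hex (m := i) (by omega) ⟨by omega, m, ⟨hm, hmM⟩, hm1⟩
  rw [hi] at hj1 hjk
  have hn : IsNormalSubloop (S (i + 1) ∩ M) := inter_nrm (h.nrm _ hjk) hM
  refine ⟨S (i + 1) ∩ M, ⟨hn, ?_, ?_⟩, fun a ha => ha.2, hj1⟩
  · intro a ha b hb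
    obtain ⟨m, hm, h1⟩ := h.comm i hik a ha.1 b hb.1
    have h2 : m ∈ M := hM.left_div _ (hM.mul_mem a ha.2 b hb.2) m (by
      rw [← h1]; exact hM.mul_mem b hb.2 a ha.2)
    rw [htriv m hm h2, Loop.mul_one'] at h1
    exact h1.symm
  · intro a ha b hb c hc
    obtain ⟨m, hm, h1⟩ := h.assoc i hik a ha.1 b hb.1 c hc.1
    have h2 : m ∈ M := hM.left_div _ (hM.mul_mem a ha.2 _ (hM.mul_mem b hb.2 c hc.2)) m (by
      rw [← h1]; exact hM.mul_mem _ (hM.mul_mem a ha.2 b hb.2) c hc.2)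
    rw [htriv m hm h2, Loop.mul_one'] at h1
    exact h1

theorem Nm_inv_mul {a : Q} (ha : a ∈ Nm Q) (y : Q) : iv a * (a * y) = y := by
  rw [← ha (iv a) y, iv_mul, Loop.one_mul']

theorem Nm_mul_inv {a : Q} (ha : a ∈ Nm Q) (x : Q) : (x * a) * iv a = x := by
  rw [ha x (iv a), mul_iv, Loop.mul_one']

theorem Nm_nrm : IsNormalSubloop (Nm Q) where
  one_mem := Nm_one
  mul_mem _ hx _ hy := Nm_mul hx hy
  left_div x hx y hy := by
    rw [← Nm_inv_mul hx y]; exact Nm_mul (Nm_iv hx) hy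
  right_div x hx y hy := by
    rw [← Nm_mul_inv hx y]; exact Nm_mul hy (Nm_iv hx)
  inn_mem _ hg hg1 _ hx := Nm_st hg hg1 hx

theorem odd_K [Finite Q] (hodd : Odd (Nat.card Q)) (hs : ∃ k S, NSer Q k S) {M : Set Q}
    (hM : IsNormalSubloop M) (hne : ∃ a ∈ M, a ≠ 1) :
    ∃ (p : ℕ) (K : Set Q), p.Prime ∧ IsNormalSubloop K ∧ K ⊆ M ∧ (∃ a ∈ K, a ≠ 1) ∧ K ⊆ Nm Q ∧
      (∀ a ∈ K, ∀ b ∈ K, a * b = b * a) ∧ ∀ a ∈ K, (L a) ^ p = 1 := by
  obtain ⟨k, S, hS⟩ := id hs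
  obtain ⟨M1, hM1, hM1M, hne1⟩ := exists_Ab' hS hM hne
  obtain ⟨p, hp, M2, hM2, hM21, hne2, hMp⟩ := AbM.exists_prime' hM1 hne1
  obtain ⟨D, hD⟩ := Dat_of_AbM' hM2 hp hMp hodd hne2
  obtain ⟨v, hv, hv0⟩ := D.V_ne hodd 1
  have hmem : Dat.pm v 1 ∈ M2 := by
    have h1 : Dat.pm v ∈ KM hM2.nrm := hD (Dat.mem_WA.1 hv.1)
    exact (rl_one hM2.nrm).1 (h1.2 1)
  have hnuc : Dat.pm v 1 ∈ Nm Q :=
    (Dat.lam_iff hodd hv).1 (Dat.main2 (Nat.card Q) Q le_rfl hodd hs D v hv)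
  refine ⟨p, M2 ∩ Nm Q, hp, inter_nrm hM2.nrm Nm_nrm, fun a ha => hM1M (hM21 ha.1),
    ⟨_, ⟨hmem, hnuc⟩, fun h => hv0 (Dat.free hodd hv h)⟩, fun a ha => ha.2,
    fun a ha b hb => hM2.comm a ha.1 b hb.1, fun a ha => ?_⟩
  have hpow : ∀ n : ℕ, ((L a) ^ n) 1 ∈ Nm Q ∧ ∀ y, ((L a) ^ n) y = ((L a) ^ n) 1 * y := by
    intro n
    induction n with
    | zero => exact ⟨Nm_one, fun y => (Loop.one_mul' y).symm⟩
    | succ n ih =>
      rw [pow_succ']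
      refine ⟨Nm_mul ha.2 ih.1, fun y => ?_⟩
      rw [Equiv.Perm.mul_apply, Equiv.Perm.mul_apply, ih.2 y, H361AL.L_apply, H361AL.L_apply]
      exact (ih.1 a y).symm
  ext y
  rw [(hpow p).2 y, hMp a ha.1, Loop.one_mul']; rfl

end Pool.Agent.Y892.AN
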