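import Pool.Agent.H361R3.AL.Final

/-!
Normal subloops of automorphic loops of odd prime power order meet the middle nucleus.
-/

namespace H361AL

variable {Q : Type*} [Loop Q] [Automorphic Q]

/-- normal subloops -/
structure NSb (M : Set Q) : Prop where
  one : (1 : Q) ∈ M
  mul : ∀ a ∈ M, ∀ b ∈ M, a * b ∈ M
  inv' : ∀ a ∈ M, iv a ∈ M
  st : ∀ g ∈ Mlt Q, g 1 = 1 → ∀ m ∈ M, g m ∈ M

namespace NSb

variable {M : Set Q} (h : NSb M)
include h

theorem blk {g : Equiv.Perm Q} (hg : g ∈ Mlt Q) (x : Q) {m : Q} (hm : m ∈ M) :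
    ∃ t ∈ M, g (x * m) = g x * t := by
  refine ⟨((L (g x))⁻¹ * g * L x) m, h.st _
    (mul_mem (mul_mem (inv_mem (L_mem _)) hg) (L_mem _)) ?_ m hm, ?_⟩
  · rw [Equiv.Perm.mul_apply, Equiv.Perm.mul_apply, L_one', Equiv.Perm.inv_eq_iff_eq, L_one']
  · have e : L (g x) * ((L (g x))⁻¹ * g * L x) = g * L x := by group
    exact (congrArg (fun g : Equiv.Perm Q => g m) e).symm

theorem blk1 {g : Equiv.Perm Q} (hg : g ∈ Mlt Q) {m : Q} (hm : m ∈ M) :
    ∃ t ∈ M, g m = g 1 * t := by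
  obtain ⟨t, ht, h1⟩ := h.blk hg 1 hm
  rw [Loop.one_mul'] at h1
  exact ⟨t, ht, h1⟩

theorem rfl' (x : Q) : ∃ m ∈ M, x = x * m := ⟨1, h.one, (Loop.mul_one' x).symm⟩

theorem symm' {x y : Q} (hxy : ∃ m ∈ M, y = x * m) : ∃ m ∈ M, x = y * m := by
  obtain ⟨m, hm, rfl⟩ := hxy
  obtain ⟨t, ht, h1⟩ := h.blk1 (mul_mem (L_mem x) (L_mem m)) (h.inv' m hm)
  refine ⟨t, ht, ?_⟩
  have e1 : (L x * L m) (iv m) = x := by
    rw [Equiv.Perm.mul_apply, L_apply, L_apply, mul_iv, Loop.mul_one']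
  have e2 : (L x * L m) 1 = x * m := by
    rw [Equiv.Perm.mul_apply, L_one', L_apply]
  rw [e1, e2] at h1
  exact h1

theorem trans' {x y z : Q} (hxy : ∃ m ∈ M, y = x * m) (hyz : ∃ m ∈ M, z = y * m) :
    ∃ m ∈ M, z = x * m := by
  obtain ⟨m, hm, rfl⟩ := hxy
  obtain ⟨t, ht, rfl⟩ := hyz
  obtain ⟨u, hu, h1⟩ := h.blk1 (mul_mem (inv_mem (L_mem x)) (L_mem (x * m))) ht
  have e1 : ((L x)⁻¹ * L (x * m)) 1 = m := by
    rw [Equiv.Perm.mul_apply, L_one', Equiv.Perm.inv_eq_iff_eq, L_apply]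
  refine ⟨((L x)⁻¹ * L (x * m)) t, ?_, ?_⟩
  · rw [h1, e1]; exact h.mul m hm u hu
  · have e : L x * ((L x)⁻¹ * L (x * m)) = L (x * m) := by group
    exact (congrArg (fun g : Equiv.Perm Q => g t) e).symm

end NSb

/-- the elements of `N` which act trivially modulo `M` -/
noncomputable def KM {M : Set Q} (h : NSb M) : Subgroup (Equiv.Perm Q) where
  carrier := {n | n ∈ N Q ∧ ∀ z, ∃ m ∈ M, n z = z * m}
  one_mem' := ⟨one_mem _, fun z => h.rfl' z⟩
  mul_mem' := by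
    rintro a b ⟨ha, ha'⟩ ⟨hb, hb'⟩
    refine ⟨mul_mem ha hb, fun z => h.trans' (hb' z) ?_⟩
    rw [Equiv.Perm.mul_apply]
    exact ha' (b z)
  inv_mem' := by
    rintro a ⟨ha, ha'⟩
    refine ⟨inv_mem ha, fun z => h.symm' ?_⟩
    have h1 := ha' (a⁻¹ z)
    rwa [show a (a⁻¹ z) = z from a.apply_symm_apply z] at h1

theorem KM_conj {M : Set Q} (h : NSb M) {g : Equiv.Perm Q} (hg : g ∈ Mlt Q) {c : Equiv.Perm Q}
    (hc : c ∈ KM h) : g * c * g⁻¹ ∈ KM h := by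
  refine ⟨N_conj (mlt_le hg) hc.1, fun z => ?_⟩
  obtain ⟨m, hm, h1⟩ := hc.2 (g⁻¹ z)
  obtain ⟨t, ht, h2⟩ := h.blk hg (g⁻¹ z) hm
  rw [show g (g⁻¹ z) = z from g.apply_symm_apply z] at h2
  refine ⟨t, ht, ?_⟩
  rw [Equiv.Perm.mul_apply, Equiv.Perm.mul_apply, h1, h2]

theorem P_KM {M : Set Q} (h : NSb M) {m : Q} (hm : m ∈ M) : s m * s 1 ∈ KM h := by
  refine ⟨P_mem_N m, fun z => ?_⟩
  rw [P_eq, Equiv.Perm.mul_apply]
  set w : Q := (R (iv m))⁻¹ z with hw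
  have hz : R (iv m) w = z := (R (iv m)).apply_symm_apply z
  have h1 : ∃ t ∈ M, z = w * t := ⟨iv m, h.inv' m hm, by rw [← hz, R_apply]⟩
  have h2 : ∃ t ∈ M, L m w = w * t := by
    obtain ⟨t, ht, h3⟩ := h.blk1 (R_mem w) hm
    rw [R_one', R_apply] at h3
    exact ⟨t, ht, h3⟩
  exact h.trans' (h.symm' h1) h2

/-- the elements of `V` which act trivially modulo `M` -/
noncomputable def VM {M : Set Q} (h : NSb M) (p : ℕ) : AddSubgroup (V Q p) where
  carrier := {v | pm v ∈ KM h}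
  zero_mem' := by
    change pm (0 : V Q p) ∈ KM h
    rw [pm_zero]; exact one_mem _
  add_mem' := by
    intro a b ha hb
    change pm (a + b) ∈ KM h
    rw [pm_add]; exact mul_mem ha hb
  neg_mem' := by
    intro a ha
    change pm (-a) ∈ KM h
    rw [pm_neg]; exact inv_mem ha

theorem VM_mem {M : Set Q} (h : NSb M) {p : ℕ} {v : V Q p} (hv : v ∈ VM h p) : pm v 1 ∈ M := by
  obtain ⟨m, hm, h1⟩ := hv.2 1
  rw [h1, Loop.one_mul']; exact hm

theorem VM_ρ {M : Set Q} (h : NSb M) {p : ℕ} {g : Gh Q} (hg : g.1 ∈ Mlt Q) {v : V Q p}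
    (hv : v ∈ VM h p) : ρ g v ∈ VM h p := by
  change pm (ρ g v) ∈ KM h
  rw [pm_ρ]
  exact KM_conj h hg hv

theorem VM_D {M : Set Q} (h : NSb M) {p : ℕ} (x : Q) {v : V Q p}
    (hv : v ∈ VM h p) : D x v ∈ VM h p := by
  have h1 : D x v = ρ (Lg x) v - v := by rw [ρ_L_apply]; abel
  rw [h1]
  exact sub_mem (VM_ρ h (L_mem x) hv) hv

variable [Finite Q]

/-- `VM` is nontrivial -/
theorem VM_ne_zero {M : Set Q} (h : NSb M) {p k : ℕ} (hp : p.Prime) (hodd : Odd (Nat.card Q))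
    (hcard : Nat.card Q = p ^ k) {m : Q} (hm : m ∈ M) (hm1 : m ≠ 1) :
    ∃ v ∈ VM h p, v ≠ 0 := by
  have hfp : Fact p.Prime := ⟨hp⟩
  have hN := N_pgroup hp hodd hcard
  set K : Subgroup (N Q) := (KM h).subgroupOf (N Q) with hK
  have hKn : K.Normal := by
    constructor
    intro c hc g
    exact Subgroup.mem_subgroupOf.2 (KM_conj h (N_le_mlt g.2) (Subgroup.mem_subgroupOf.1 hc))
  have hKp : IsPGroup p K := hN.to_subgroup _
  have hnt : Nontrivial K := by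
    refine ⟨⟨⟨⟨s m * s 1, P_mem_N m⟩, Subgroup.mem_subgroupOf.2 (P_KM h hm)⟩, 1, ?_⟩⟩
    intro h0
    have h2 : s m * s 1 = 1 := congrArg (fun a : K => a.1.1) h0
    have h3 := mul_eq_one_iff_eq_inv.1 h2
    rw [s_inv] at h3
    exact hm1 (s_inj hodd h3)
  have hdvd : p ∣ Nat.card K := by
    obtain ⟨n, hn⟩ := IsPGroup.iff_card.1 hKp
    have hn0 : n ≠ 0 := by
      rintro rfl
      rw [pow_zero] at hn
      have := Finite.one_lt_card (α := K)
      omega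
    rw [hn]; exact dvd_pow_self p hn0
  let act : MulAction (N Q) K := MulAction.compHom K (MulAut.conjNormal (H := K))
  have hfix1 : (1 : K) ∈ MulAction.fixedPoints (N Q) K := fun g =>
    map_one (MulAut.conjNormal (H := K) g)
  obtain ⟨c, hc, hc1⟩ := hN.exists_fixed_point_of_prime_dvd_card_of_fixed_point K hdvd
    (a := 1) hfix1
  have hcomm : ∀ n ∈ N Q, n * c.1.1 = c.1.1 * n := by
    intro n hn
    have h1 : MulAut.conjNormal (H := K) ⟨n, hn⟩ c = c := hc ⟨n, hn⟩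
    have h2 := congrArg (fun a : K => a.1.1) h1
    have h3 : n * c.1.1 * n⁻¹ = c.1.1 := by
      have h4 := congrArg (fun a : N Q => a.1) (MulAut.conjNormal_apply (H := K) ⟨n, hn⟩ c)
      exact h4.symm.trans h2
    rw [mul_inv_eq_iff_eq_mul] at h3
    exact h3
  obtain ⟨j, hj⟩ := (IsPGroup.iff_orderOf.1 hKp) c
  have hj0 : j ≠ 0 := by
    rintro rfl
    rw [pow_zero, orderOf_eq_one_iff] at hj
    exact hc1 hj.symm
  obtain ⟨i, rfl⟩ : ∃ i, j = i + 1 := ⟨j - 1, by omega⟩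
  have hd1 : c ^ p ^ i ≠ 1 := by
    intro h0
    have h1 := orderOf_dvd_of_pow_eq_one h0
    rw [hj] at h1
    have h2 := (Nat.pow_dvd_pow_iff_le_right hp.one_lt).1 h1
    omega
  have hdp : (c ^ p ^ i) ^ p = 1 := by
    rw [← pow_mul, ← pow_succ, ← hj, pow_orderOf_eq_one]
  have hdc : ∀ n ∈ N Q, n * (c.1.1) ^ p ^ i = (c.1.1) ^ p ^ i * n := by
    intro n hn
    have h1 : Commute n c.1.1 := hcomm n hn
    exact (h1.pow_right _)
  have hdW : (c.1.1) ^ p ^ i ∈ W Q p := by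
    refine ⟨pow_mem c.1.2 _, hdc, ?_⟩
    exact congrArg (fun a : K => a.1.1) hdp
  refine ⟨Additive.ofMul ⟨(c.1.1) ^ p ^ i, hdW⟩, ?_, ?_⟩
  · change (c.1.1) ^ p ^ i ∈ KM h
    exact pow_mem (Subgroup.mem_subgroupOf.1 c.2) _
  · intro h0
    apply hd1
    apply Subtype.ext
    apply Subtype.ext
    exact congrArg pm h0

theorem D_B' {M : Set Q} (h : NSb M) (hodd : Odd (Nat.card Q)) {p : ℕ} (x : Q) (v w : V Q p)
    (hv : v ∈ VM h p) (hw : w ∈ VM h p) :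
    ∃ v' w' : V Q p, v' ∈ VM h p ∧ w' ∈ VM h p ∧ D x (B v w) = B v' w' - B v w := by
  obtain ⟨n, hn, hn1⟩ := N_trans hodd x
  set h' : Gh Q := ⟨n⁻¹ * L x, mul_mem (inv_mem (mlt_le (N_le_mlt hn))) (mlt_le (L_mem x))⟩
    with hh
  have hm : h'.1 ∈ Mlt Q := mul_mem (inv_mem (N_le_mlt hn)) (L_mem x)
  have h1 : h'.1 1 = 1 := by
    change (n⁻¹ * L x) 1 = 1
    rw [Equiv.Perm.mul_apply, L_one', Equiv.Perm.inv_eq_iff_eq, hn1]
  have hρ : (ρ h' : AddMonoid.End (V Q p)) = ρ (Lg x) := by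
    have e : h' = ⟨n⁻¹, inv_mem (mlt_le (N_le_mlt hn))⟩ * Lg x := rfl
    rw [e, ρ_mul, ρ_N _ (inv_mem hn), one_mul]
  refine ⟨ρ h' v, ρ h' w, VM_ρ h hm hv, VM_ρ h hm hw, ?_⟩
  have h2 : ρ h' (B v w) = B (ρ h' v) (ρ h' w) := by
    have h3 := ρ_D (p := p) h' hm h1 (pm v 1)
    have h4 : h'.1 (pm v 1) = pm (ρ h' v) 1 := by
      rw [pm_ρ]
      have h9 : (h'.1)⁻¹ 1 = 1 := by rw [Equiv.Perm.inv_eq_iff_eq, h1]
      change h'.1 (pm v 1) = h'.1 (pm v ((h'.1)⁻¹ 1))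
      rw [h9]
    rw [h4] at h3
    have h5 : (ρ h' * D (pm v 1) : AddMonoid.End (V Q p)) w =
        (D (pm (ρ h' v) 1) * ρ h' : AddMonoid.End (V Q p)) w := by
      rw [h3]
    exact h5
  rw [← h2, hρ, ρ_L_apply]; abel

/-- a nontrivial subgroup of `VM` on which the bracket vanishes -/
theorem exists_V2' {M : Set Q} (h : NSb M) {p k : ℕ} (hp : p.Prime) (hp2 : Odd p)
    (hodd : Odd (Nat.card Q)) (hcard : Nat.card Q = p ^ k) {m : Q} (hm : m ∈ M) (hm1 : m ≠ 1) :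
    ∃ V2 : AddSubgroup (V Q p), V2 ≤ VM h p ∧ (∃ v ∈ V2, v ≠ 0) ∧
      (∀ x : Q, ∀ v ∈ V2, D x v ∈ V2) ∧ ∀ a ∈ V2, ∀ b ∈ V2, B a b = 0 := by
  by_cases hB : ∀ a ∈ VM h p, ∀ b ∈ VM h p, B a b = 0
  · exact ⟨VM h p, le_rfl, VM_ne_zero h hp hodd hcard hm hm1, fun x v hv => VM_D h x hv, hB⟩
  · push Not at hB
    obtain ⟨a, ha, b, hb, hab⟩ := hB
    refine ⟨AddSubgroup.closure {c | ∃ v w : V Q p, v ∈ VM h p ∧ w ∈ VM h p ∧ c = B v w}, ?_,
      ⟨B a b, ?_, hab⟩, ?_, ?_⟩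
    · rw [AddSubgroup.closure_le]
      rintro _ ⟨v, w, hv, hw, rfl⟩
      exact VM_D h _ hw
    · exact AddSubgroup.subset_closure ⟨a, b, ha, hb, rfl⟩
    · intro x v hv
      induction hv using AddSubgroup.closure_induction with
      | mem c hc =>
        obtain ⟨v, w, hv, hw, rfl⟩ := hc
        obtain ⟨v', w', hv', hw', h⟩ := D_B' h hodd x v w hv hw
        rw [h]
        exact sub_mem (AddSubgroup.subset_closure ⟨v', w', hv', hw', rfl⟩)
          (AddSubgroup.subset_closure ⟨v, w, hv, hw, rfl⟩)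
      | zero => rw [map_zero]; exact zero_mem _
      | add c d _ _ hc hd => rw [map_add]; exact add_mem hc hd
      | neg c _ hc => rw [map_neg]; exact neg_mem hc
    · intro c hc
      induction hc using AddSubgroup.closure_induction with
      | mem c hc =>
        obtain ⟨v, w, -, -, rfl⟩ := hc
        intro d hd
        induction hd using AddSubgroup.closure_induction with
        | mem d hd =>
          obtain ⟨v', w', -, -, rfl⟩ := hd
          exact B_metabelian hodd hp2 v w v' w'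
        | zero => exact map_zero _
        | add c d _ _ hc hd =>
          have : B (B v w) (c + d) = B (B v w) c + B (B v w) d := map_add _ _ _
          rw [this, hc, hd, add_zero]
        | neg c _ hc =>
          have : B (B v w) (-c) = - B (B v w) c := map_neg _ _
          rw [this, hc, neg_zero]
      | zero =>
        intro d _
        have h1 : B 0 d = - B d 0 := D_antisymm hodd _ _
        have h2 : B d 0 = 0 := map_zero _
        rw [h1, h2, neg_zero]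
      | add c c' _ _ hc hc' =>
        intro d hd
        rw [B_add_left hodd, hc d hd, hc' d hd, add_zero]
      | neg c _ hc =>
        intro d hd
        have h1 : B (-c) d = - B d (-c) := D_antisymm hodd _ _
        have h2 : B d (-c) = - B d c := map_neg _ _
        have h3 : B c d = - B d c := D_antisymm hodd _ _
        rw [h1, h2, ← h3, hc d hd, neg_zero]

/-- normal subloops meet the middle nucleus -/
theorem main' {M : Set Q} (h : NSb M) {p k : ℕ} (hp : p.Prime) (hp2 : p ≠ 2)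
    (hcard : Nat.card Q = p ^ k) {m : Q} (hm : m ∈ M) (hm1 : m ≠ 1) :
    ∃ a : Q, a ∈ M ∧ a ≠ 1 ∧ ∀ x y : Q, (x * a) * y = x * (a * y) := by
  have hpo : Odd p := hp.odd_of_ne_two hp2
  have hodd : Odd (Nat.card Q) := by rw [hcard]; exact hpo.pow
  obtain ⟨V2, hVM, ⟨v0, hv0, hv0n⟩, hV, hB⟩ := exists_V2' h hp hpo hodd hcard hm hm1
  set Pr : AddMonoid.End V2 → Prop := fun e => ∃ x, D2 V2 hV x = e with hPr
  have h2 : ∀ e : AddMonoid.End V2, e + e = 0 → e = 0 := fun e he => D2_two V2 hpo e he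
  have hadd : ∀ X Y, Pr X → Pr Y → Pr (X + Y) := by
    rintro _ _ ⟨x, rfl⟩ ⟨y, rfl⟩
    exact D2_add V2 hV hB hodd hpo x y
  have hbr : ∀ X Y, Pr X → Pr Y → Pr (br X Y) := by
    rintro _ _ ⟨x, rfl⟩ ⟨y, rfl⟩
    exact D2_br V2 hV hB hodd hpo x y
  have h1 : ∀ X Z, Pr X → Pr Z → br X Z * X = 0 := by
    rintro _ _ ⟨x, rfl⟩ ⟨y, rfl⟩
    exact D2_key V2 hV hB hodd hpo x y
  have hfin : Finite ↥(W Q p) := inferInstance
  have hfinV : Finite (V Q p) := hfin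
  have hfin2 : Finite V2 := inferInstance
  obtain ⟨v, hv, hvC⟩ := common_kernel (V := V2) (ι := Q × Q)
    (fun i => br (D2 V2 hV i.1) (D2 V2 hV i.2))
    (fun i j => br_comm Pr h2 hadd hbr h1 ⟨_, rfl⟩ ⟨_, rfl⟩ ⟨_, rfl⟩ ⟨_, rfl⟩)
    (fun i => br_br Pr h2 hadd hbr h1 ⟨_, rfl⟩ ⟨_, rfl⟩ ⟨_, rfl⟩)
    ⟨⟨v0, hv0⟩, fun h => hv0n (congrArg Subtype.val h)⟩
  have hcomm : ∀ x y : Q, D x (D y v.1) = D y (D x v.1) := by
    intro x y
    have h3 := congrArg Subtype.val (hvC (x, y))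
    change D x (D y v.1) - D y (D x v.1) = 0 at h3
    exact sub_eq_zero.1 h3
  refine ⟨pm v.1 1, VM_mem h (hVM v.2), ?_, ?_⟩
  · intro h
    have h3 : pm v.1 1 = pm (0 : V Q p) 1 := by rw [h]; rfl
    exact hv (Subtype.ext (pm_semireg hodd h3))
  · intro x y
    have e1 : x * pm v.1 1 = pm (ρ (Lg x) v.1) x := by
      rw [mul_pm, Loop.mul_one']
    have e2 : pm v.1 1 * y = pm (ρ (Lg (iv y)) v.1) y := by
      rw [pm_mul, Loop.one_mul']
    rw [e1, e2, pm_mul, mul_pm]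
    congr 2
    rw [ρ_L_apply, ρ_L_apply, ρ_L_apply, ρ_L_apply, map_add, map_add, D_iv hodd]
    have e3 : (-D y : AddMonoid.End (V Q p)) (D x v.1) = D x ((-D y : AddMonoid.End (V Q p)) v.1) := by
      change -(D y (D x v.1)) = D x (-(D y v.1))
      rw [map_neg, hcomm]
    rw [e3]; abel

end H361AL
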