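import Pool.Agent.TH427.AM2.All

/-!
Normal subloops of automorphic loops of order `2 ^ k` meet the middle nucleus.
-/

set_option autoImplicit false

namespace Pool.Agent.Y892.AN

open Pool.Agent.H687R3.AL Pool.Agent.H687R3.AL.AL Pool.Agent.W328.AM Equiv

variable {Q : Type} (A : AL Q)

/-- the multiplication group -/
def AMlt : Subgroup (Perm Q) := Subgroup.closure (Set.range A.L ∪ Set.range A.R)

variable {A}

theorem AL_mem (x : Q) : A.L x ∈ AMlt A := Subgroup.subset_closure (Or.inl ⟨x, rfl⟩)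

theorem AR_mem (x : Q) : A.R x ∈ AMlt A := Subgroup.subset_closure (Or.inr ⟨x, rfl⟩)

theorem JRJ (x : Q) : A.J * A.R x * A.J = A.L (A.inv x) := by
  rw [R_eq]
  have e : A.J * (A.J * A.L (A.inv x) * A.J) * A.J =
      (A.J * A.J) * A.L (A.inv x) * (A.J * A.J) := by group
  rw [e, J_sq, one_mul, mul_one]

theorem J_amlt {g : Perm Q} (hg : g ∈ AMlt A) : A.J * g * A.J ∈ AMlt A := by
  induction hg using Subgroup.closure_induction with
  | mem g hg =>
    rcases hg with ⟨x, rfl⟩ | ⟨x, rfl⟩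
    · rw [J_L_J]; exact AR_mem _
    · rw [JRJ]; exact AL_mem _
  | one => rw [mul_one, J_sq]; exact one_mem _
  | mul a b _ _ ha hb =>
    have e : A.J * (a * b) * A.J = (A.J * a * A.J) * (A.J * b * A.J) := by
      calc A.J * (a * b) * A.J = A.J * a * 1 * b * A.J := by group
        _ = A.J * a * (A.J * A.J) * b * A.J := by rw [J_sq]
        _ = _ := by group
    rw [e]; exact mul_mem ha hb
  | inv a _ ha =>
    have e : A.J * a⁻¹ * A.J = (A.J * a * A.J)⁻¹ := by
      rw [mul_inv_rev, mul_inv_rev, J_inv, mul_assoc]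
    rw [e]; exact inv_mem ha

theorem gg_amlt {g : Perm Q} (hg : g ∈ GG A) : g ∈ AMlt A ∨ g * A.J ∈ AMlt A := by
  have J_amlt' : ∀ {g : Perm Q}, A.J * g * A.J ∈ AMlt A → g ∈ AMlt A := by
    intro g hg
    have h := J_amlt hg
    have e : A.J * (A.J * g * A.J) * A.J = g := by
      calc A.J * (A.J * g * A.J) * A.J = (A.J * A.J) * g * (A.J * A.J) := by group
        _ = g := by rw [J_sq, one_mul, mul_one]
    rwa [e] at h
  have JJ : ∀ a : Perm Q, A.J * (A.J * a) = a := fun a => by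
    rw [← mul_assoc, J_sq, one_mul]
  induction hg using Subgroup.closure_induction with
  | mem x hx =>
    rcases hx with ⟨x, rfl⟩ | hx
    · exact Or.inl (AL_mem x)
    · rw [Set.mem_singleton_iff.1 hx, J_sq]
      exact Or.inr (AMlt A).one_mem
  | one => exact Or.inl (AMlt A).one_mem
  | mul a b _ _ ha hb =>
    rcases ha with ha | ha <;> rcases hb with hb | hb
    · exact Or.inl ((AMlt A).mul_mem ha hb)
    · right
      rw [mul_assoc]
      exact (AMlt A).mul_mem ha hb
    · right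
      have h := (AMlt A).mul_mem ha (J_amlt hb)
      have e : a * A.J * (A.J * b * A.J) = a * b * A.J := by
        rw [mul_assoc a, mul_assoc A.J b, JJ, mul_assoc]
      rwa [e] at h
    · left
      have h := (AMlt A).mul_mem ha (J_amlt hb)
      have e : a * A.J * (A.J * (b * A.J) * A.J) = a * b := by
        rw [mul_assoc a, mul_assoc A.J (b * A.J), JJ, mul_assoc b, J_sq, mul_one]
      rwa [e] at h
  | inv a _ ha =>
    rcases ha with ha | ha
    · exact Or.inl ((AMlt A).inv_mem ha)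
    · right
      apply J_amlt'
      have h := (AMlt A).inv_mem ha
      rw [mul_inv_rev, J_inv] at h
      have e : A.J * (a⁻¹ * A.J) * A.J = A.J * a⁻¹ := by
        rw [mul_assoc, mul_assoc, J_sq, mul_one]
      rwa [e]

theorem ns_of {M : Set Q} (he : A.e ∈ M) (hop : ∀ a ∈ M, ∀ b ∈ M, A.op a b ∈ M)
    (hinv : ∀ a ∈ M, A.inv a ∈ M) (hst : ∀ g ∈ AMlt A, g A.e = A.e → ∀ m ∈ M, g m ∈ M) :
    NS A M := by
  refine ⟨he, hop, ?_⟩
  intro g hg hge m hm
  rcases gg_amlt hg with h | h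
  · exact hst g h hge m hm
  · have h1 : (g * A.J) A.e = A.e := by rw [Perm.mul_apply, MS.J_e, hge]
    have h2 := hst _ h h1 _ (hinv m hm)
    rw [Perm.mul_apply, J_apply, inv_inv'] at h2
    exact h2

theorem card_mul [Finite Q] {M : Set Q} (hM : NS A M) :
    Nat.card {m : Q // m ∈ M} ∣ Nat.card Q := by
  obtain ⟨P, C, π, hπs, hπ, hπM⟩ := exists_quot hM
  have hfinP : Finite P := Finite.of_surjective π hπs
  have hcardP : Nat.card {m : Q // m ∈ M} * Nat.card P = Nat.card Q := by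
    have hfib : ∀ q : P, Nat.card {y // π y = q} = Nat.card {m : Q // m ∈ M} := by
      intro q
      obtain ⟨x, rfl⟩ := hπs q
      refine (Nat.card_congr ((A.L x).subtypeEquiv ?_)).symm
      intro y
      change y ∈ M ↔ π (A.op x y) = π x
      rw [eq_comm, hπM]
      constructor
      · intro h; exact ⟨y, h, rfl⟩
      · rintro ⟨s, hs, h1⟩
        rw [MS.opL_cancel h1]
        exact hs
    have := Fintype.ofFinite P
    rw [← Nat.card_congr (Equiv.sigmaFiberEquiv π), Nat.card_sigma]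
    simp only [hfib]
    rw [Finset.sum_const, Finset.card_univ, ← Nat.card_eq_fintype_card, smul_eq_mul,
      mul_comm]
  exact ⟨_, hcardP.symm⟩

/-- a normal subloop meets the middle nucleus -/
theorem exists_mid' [Finite Q] (hcard : ∃ n, Nat.card Q = 2 ^ n) {M : Set Q} (hM : NS A M)
    (hne : ∃ x ∈ M, x ≠ A.e) :
    ∃ a ∈ M, a ≠ A.e ∧ ∀ x y, A.op (A.op x a) y = A.op x (A.op a y) := by
  have h : SC A := Pool.Agent.TH427.AM2.sc_all _ Q A hcard rfl
  have : Fact (Nat.Prime 2) := ⟨Nat.prime_two⟩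
  set S : Subgroup (GG A) := commutator (GG A) ⊓ MulAction.stabilizer (GG A) A.e with hS
  have hp : IsPGroup 2 S := by
    rintro ⟨c, hc⟩
    obtain ⟨k, hk⟩ := h c hc.1
    exact ⟨k, Subtype.ext hk⟩
  let X : SubMulAction S Q :=
    { carrier := M
      smul_mem' := fun s {m} hm => hM.st s.1.1 s.1.2 s.2.2 m hm }
  have hdvd : 2 ∣ Nat.card X := by
    obtain ⟨n, hn⟩ := hcard
    have h1 : Nat.card X ∣ 2 ^ n := by rw [← hn]; exact card_mul hM
    obtain ⟨i, _, hi⟩ := (Nat.dvd_prime_pow Nat.prime_two).1 h1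
    rw [hi]
    apply dvd_pow_self
    rintro rfl
    rw [pow_zero, Nat.card_eq_one_iff_unique] at hi
    obtain ⟨x, hxM, hx⟩ := hne
    exact hx (congrArg Subtype.val (hi.1.elim (⟨x, hxM⟩ : X) ⟨A.e, hM.e⟩))
  have hfix : (⟨A.e, hM.e⟩ : X) ∈ MulAction.fixedPoints S X := fun s => Subtype.ext s.2.2
  obtain ⟨a, ha, hae⟩ := hp.exists_fixed_point_of_prime_dvd_card_of_fixed_point X hdvd hfix
  refine ⟨a.1, a.2, fun h => hae (Subtype.ext h.symm), fun x y => ?_⟩
  have hcm : (gl A x)⁻¹ * (gr A y)⁻¹ * gl A x * gr A y ∈ S := by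
    refine ⟨?_, ?_⟩
    · rw [commutator_def]
      have := Subgroup.commutator_mem_commutator (Subgroup.mem_top (gl A x)⁻¹)
        (Subgroup.mem_top (gr A y)⁻¹)
      rw [commutatorElement_def, inv_inv, inv_inv] at this
      exact this
    · change (A.L x)⁻¹ ((A.R y)⁻¹ (A.op x (A.op A.e y))) = A.e
      rw [A.idl, R_inv_op, Perm.inv_eq_iff_eq]
      exact (A.idr x).symm
  have h1 := congrArg Subtype.val (ha ⟨_, hcm⟩)
  have h2 : (A.L x)⁻¹ ((A.R y)⁻¹ (A.op x (A.op a.1 y))) = a.1 := h1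
  rw [Perm.inv_eq_iff_eq, Perm.inv_eq_iff_eq] at h2
  exact h2.symm

end Pool.Agent.Y892.AN
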