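import Pool.Agent.Y892.AN.Irr
import Pool.Agent.Y892.AN.Two

/-!
The commutator subgroup of the multiplication group of an automorphic loop of prime power order.
-/

set_option autoImplicit false

namespace Pool.Agent.Y892.AN

open Pool.Agent.H687R3.AL Pool.Agent.H687R3.AL.AL Pool.Agent.W328.AM Equiv

/-- the loop as an instance -/
@[reducible] def cls {Q : Type} (A : AL Q) : H361AL.Loop Q where
  mul := A.op
  one := A.e
  one_mul' := A.idl
  mul_one' := A.idr
  left_div a b := (A.bijL a).existsUnique b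
  right_div a b := (A.bijR a).existsUnique b

theorem amlt_hol {Q : Type} {A : AL Q} {g : Perm Q} (hg : g ∈ AMlt A) : g ∈ Hol A := by
  have hle : AMlt A ≤ Hol A := by
    rw [AMlt, Subgroup.closure_le]
    rintro _ (⟨x, rfl⟩ | ⟨x, rfl⟩)
    · exact L_hol x
    · exact R_hol x
  exact hle hg

theorem cls_mlt {Q : Type} (A : AL Q) : @H361AL.Mlt Q (cls A) = AMlt A := rfl

theorem cls_aut {Q : Type} (A : AL Q) : @H361AL.Automorphic Q (cls A) :=
  @H361AL.Automorphic.mk Q (cls A) fun f hf h1 x y => aut_apply (hol_fix (amlt_hol hf) h1) x y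

theorem hom_amlt {Q P : Type} {A : AL Q} {B : AL P} {π : Q → P}
    (hπ : ∀ x y, π (A.op x y) = B.op (π x) (π y)) {g : Perm Q} (hg : g ∈ AMlt A) :
    ∃ g' ∈ AMlt B, ∀ z, π (g z) = g' (π z) := by
  induction hg using Subgroup.closure_induction with
  | mem x hx =>
    rcases hx with ⟨x, rfl⟩ | ⟨x, rfl⟩
    · exact ⟨_, AL_mem (π x), fun z => hπ x z⟩
    · exact ⟨_, AR_mem (π x), fun z => hπ z x⟩
  | one => exact ⟨1, one_mem _, fun z => rfl⟩
  | mul a b _ _ ha hb =>
    obtain ⟨a', ha, ha'⟩ := ha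
    obtain ⟨b', hb, hb'⟩ := hb
    exact ⟨a' * b', mul_mem ha hb, fun z => by
      rw [Perm.mul_apply, ha', hb', Perm.mul_apply]⟩
  | inv a _ ha =>
    obtain ⟨a', ha, ha'⟩ := ha
    refine ⟨a'⁻¹, inv_mem ha, fun z => ?_⟩
    rw [Perm.eq_inv_iff_eq, ← ha']
    simp

theorem hom_derived {Q P : Type} {A : AL Q} {B : AL P} {π : Q → P}
    (hπ : ∀ x y, π (A.op x y) = B.op (π x) (π y)) {g : Perm Q} (hg : g ∈ ⁅AMlt A, AMlt A⁆) :
    ∃ g' ∈ ⁅AMlt B, AMlt B⁆, ∀ z, π (g z) = g' (π z) := by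
  have hinv : ∀ {a : Perm Q} {a' : Perm P}, (∀ z, π (a z) = a' (π z)) →
      ∀ z, π (a⁻¹ z) = a'⁻¹ (π z) := by
    intro a a' ha z
    rw [Perm.eq_inv_iff_eq, ← ha]
    simp
  rw [Subgroup.commutator_def] at hg
  induction hg using Subgroup.closure_induction with
  | mem x hx =>
    obtain ⟨a, ha, b, hb, rfl⟩ := hx
    obtain ⟨a', ha', ha''⟩ := hom_amlt (B := B) hπ ha
    obtain ⟨b', hb', hb''⟩ := hom_amlt (B := B) hπ hb
    have hmem := Subgroup.commutator_mem_commutator ha' hb'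
    rw [commutatorElement_def] at hmem
    refine ⟨_, hmem, fun z => ?_⟩
    rw [commutatorElement_def]
    simp only [Perm.mul_apply]
    rw [ha'', hb'', hinv ha'', hinv hb'']
  | one => exact ⟨1, one_mem _, fun z => rfl⟩
  | mul a b _ _ ha hb =>
    obtain ⟨a', ha, ha'⟩ := ha
    obtain ⟨b', hb, hb'⟩ := hb
    exact ⟨a' * b', mul_mem ha hb, fun z => by
      rw [Perm.mul_apply, ha', hb', Perm.mul_apply]⟩
  | inv a _ ha =>
    obtain ⟨a', ha, ha'⟩ := ha
    exact ⟨a'⁻¹, inv_mem ha, hinv ha'⟩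

theorem sc_odd {p : ℕ} (hp : p.Prime) (hp2 : p ≠ 2) (n : ℕ) : ∀ (Q : Type) [Finite Q]
    (A : AL Q), (∃ k, Nat.card Q = p ^ k) → Nat.card Q = n →
    ∀ g ∈ ⁅AMlt A, AMlt A⁆, ∃ k, g ^ p ^ k = 1 := by
  induction n using Nat.strong_induction_on with
  | _ n ih =>
    intro Q _ A hcard hn g hg
    by_cases hne : ∃ x : Q, x ≠ A.e
    swap
    · push Not at hne
      refine ⟨0, Equiv.ext fun x => ?_⟩
      rw [hne x, hne ((g ^ p ^ 0) A.e)]
      rfl
    obtain ⟨k, hk⟩ := hcard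
    have hk1 : 1 ≤ k := by
      rcases Nat.eq_zero_or_pos k with rfl | h
      · exfalso
        rw [pow_zero, Nat.card_eq_one_iff_unique] at hk
        obtain ⟨x, hx⟩ := hne
        exact hx (hk.1.elim _ _)
      · exact h
    have hpo : Odd p := hp.odd_of_ne_two hp2
    have hodd : Odd (Nat.card Q) := by rw [hk]; exact hpo.pow
    let i1 : H361AL.Loop Q := cls A
    have i2 : H361AL.Automorphic Q := cls_aut A
    obtain ⟨F, ⟨v0, hv0, hv0n⟩, hV, hC⟩ := H361AL.exists_F (Q := Q) hp hpo hodd hk hk1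
    have hNS := H361AL.F_NSb (Q := Q) F hV hodd
    set M : Set Q := {x : Q | ∃ v ∈ F, x = H361AL.pm v 1} with hM
    have hns : NS A M := ns_of hNS.one hNS.mul hNS.inv' hNS.st
    have hM1 : ∃ x ∈ M, x ≠ A.e := by
      refine ⟨H361AL.pm v0 1, ⟨v0, hv0, rfl⟩, fun h0 => hv0n ?_⟩
      have h3 : H361AL.pm v0 (1 : Q) = H361AL.pm (0 : H361AL.V Q p) 1 := by
        rw [H361AL.pm_zero]; exact h0
      exact H361AL.pm_semireg hodd h3
    obtain ⟨P, C, π, hπs, hπ, hπM⟩ := exists_quot hns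
    have hfinP : Finite P := Finite.of_surjective π hπs
    have hcardP : Nat.card {m : Q // m ∈ M} * Nat.card P = Nat.card Q := by
      have hfib : ∀ q : P, Nat.card {y // π y = q} = Nat.card {m : Q // m ∈ M} := by
        intro q
        obtain ⟨x, rfl⟩ := hπs q
        refine (Nat.card_congr ((A.L x).subtypeEquiv ?_)).symm
        intro y
        change y ∈ M ↔ π (A.op x y) = π x
        rw [eq_comm, hπM]
        constructor
        · intro h; exact ⟨y, h, rfl⟩
        · rintro ⟨s, hs, h1⟩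
          rw [MS.opL_cancel h1]
          exact hs
      have := Fintype.ofFinite P
      rw [← Nat.card_congr (Equiv.sigmaFiberEquiv π), Nat.card_sigma]
      simp only [hfib]
      rw [Finset.sum_const, Finset.card_univ, ← Nat.card_eq_fintype_card, smul_eq_mul,
        mul_comm]
    have hlt : Nat.card P < n := by
      rw [← hn, ← hcardP]
      obtain ⟨x, hx, hxe⟩ := hM1
      have hnt : Nontrivial {m : Q // m ∈ M} :=
        ⟨⟨⟨x, hx⟩, ⟨A.e, hns.e⟩, fun h => hxe (congrArg Subtype.val h)⟩⟩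
      have h3 : 1 < Nat.card {m : Q // m ∈ M} := Finite.one_lt_card
      have h2 : 0 < Nat.card P := Nat.card_pos_iff.2 ⟨⟨π A.e⟩, hfinP⟩
      nlinarith
    have hP2 : ∃ k, Nat.card P = p ^ k := by
      have h1 : Nat.card P ∣ p ^ k := ⟨_, by rw [← hk, ← hcardP, mul_comm]⟩
      obtain ⟨i, _, hi⟩ := (Nat.dvd_prime_pow hp).1 h1
      exact ⟨i, hi⟩
    obtain ⟨g', hg', hgg⟩ := hom_derived (B := C) hπ hg
    obtain ⟨j, hj⟩ := ih (Nat.card P) hlt P C hP2 rfl g' hg'
    have hpow : ∀ (i : ℕ) (z : Q), π ((g ^ i) z) = (g' ^ i) (π z) := by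
      intro i
      induction i with
      | zero => intro z; rfl
      | succ i ih' => intro z; rw [pow_succ', pow_succ', Perm.mul_apply, Perm.mul_apply, hgg, ih']
    have hg1 : g ^ p ^ j ∈ ⁅H361AL.Mlt Q, H361AL.Mlt Q⁆ := pow_mem hg _
    have h1 := H361AL.pow_p F hV hC hodd hg1 (fun z => by
      have h2 : π z = π ((g ^ p ^ j) z) := by rw [hpow, hj]; rfl
      obtain ⟨s, ⟨v, hv, rfl⟩, h3⟩ := (hπM _ _).1 h2
      exact ⟨v, hv, h3⟩)
    exact ⟨j + 1, by rw [pow_succ, pow_mul]; exact h1⟩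

theorem sc_two (Q : Type) [Finite Q] (A : AL Q) (hcard : ∃ k, Nat.card Q = 2 ^ k)
    (g : Perm Q) (hg : g ∈ ⁅AMlt A, AMlt A⁆) : ∃ k, g ^ 2 ^ k = 1 := by
  have hle : AMlt A ≤ GG A := by
    rw [AMlt, Subgroup.closure_le]
    rintro _ (⟨x, rfl⟩ | ⟨x, rfl⟩)
    · exact L_mem A x
    · exact R_mem A x
  have hsc := Pool.Agent.TH427.AM2.sc_all _ Q A hcard rfl
  have h1 : ⁅AMlt A, AMlt A⁆ ≤ (commutator (GG A)).map (GG A).subtype := by
    rw [commutator_def, Subgroup.map_commutator]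
    refine Subgroup.commutator_mono ?_ ?_ <;>
    · rw [← MonoidHom.range_eq_map, Subgroup.range_subtype]; exact hle
  obtain ⟨c, hc, rfl⟩ := h1 hg
  obtain ⟨k, hk⟩ := hsc c hc
  refine ⟨k, ?_⟩
  rw [← map_pow, hk, map_one]

/-- for every prime: the commutator subgroup of the multiplication group of an automorphic loop
of order `p ^ k` consists of elements of `p`-power order -/
theorem sc {p : ℕ} (hp : p.Prime) (Q : Type) [Finite Q] (A : AL Q)
    (hcard : ∃ k, Nat.card Q = p ^ k) (g : Perm Q) (hg : g ∈ ⁅AMlt A, AMlt A⁆) :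
    ∃ k, g ^ p ^ k = 1 := by
  by_cases hp2 : p = 2
  · subst hp2
    exact sc_two Q A hcard g hg
  · exact sc_odd hp hp2 _ Q A hcard rfl g hg

end Pool.Agent.Y892.AN
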